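import Pool.Agent.Work.MP_e8d560_co.G.Main

/-! Counting the exceptional coefficient vectors in a rational subspace. -/

namespace Pool.Agent.Work.MP_e8d560_co.G

open Finset Filter

/-- exceptional tuples -/
theorem count_tuples {k m : ℕ} (hk : 2 ≤ k) (hm : 1 ≤ m) (α : Fin k → ℤ) (β : Fin m → Fin k → ℤ)
    (i0 : Fin k) (hpos : ∀ i, i ≠ i0 → 0 < α i) (hα : ∑ i, α i = 0) (hβ : ∀ l, ∑ i, β l i = 0)
    {ε : ℝ} (hε : 0 < ε) :
    ∃ C : ℕ, ∀ H : ℕ, 2 ≤ H → ∃ W : Finset (Fin (m + 1) → ℤ), W.card ≤ C * H ^ m * Nat.log 2 H ^ C ∧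
      ∀ y : Fin (m + 1) → ℤ, (∀ i, |y i| ≤ H) →
        (¬ ∀ n : ℕ, 1 ≤ n →
          (n : ℝ) ^ (1 - ε) ≤ ((C * Nat.log 2 H ^ C : ℕ) : ℝ) * F (comb α β y) n) → y ∈ W := by
  classical
  obtain ⟨r, C1, hdi⟩ := dichotomy hk hm α β i0 hpos hα hβ hε
  set P := (r + 1) ^ m with hP
  set C2 := (2 * C1 + 1) ^ P * (m * r) * 3 ^ m + C1 * P + C1 with hC2
  refine ⟨C2, fun H hH => ?_⟩
  obtain ⟨L, hL, hgen⟩ := hdi H hH
  set h := Nat.log 2 H with hh
  have hh1 : 1 ≤ h := Nat.log_pos (by norm_num) hH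
  set W : Finset (Fin (m + 1) → ℤ) := (fam m r L).biUnion fun g =>
    (Fintype.piFinset fun _ : Fin (m + 1) => Finset.Icc (-(H : ℤ)) (H : ℤ)).filter
      fun y => FF r (exz g) y = 0 with hW
  have hWc : W.card ≤ (2 * L + 1) ^ P * (m * r * (2 * H + 1) ^ m) := by
    refine (Finset.card_biUnion_le).trans ?_
    calc ∑ g ∈ fam m r L, ((Fintype.piFinset fun _ : Fin (m + 1) =>
          Finset.Icc (-(H : ℤ)) (H : ℤ)).filter fun y => FF r (exz g) y = 0).card ≤
          ∑ _g ∈ fam m r L, m * r * (2 * H + 1) ^ m := by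
          refine Finset.sum_le_sum fun g hg => ?_
          obtain ⟨J, hJ⟩ := Function.ne_iff.1 (mem_fam.1 hg).1
          refine count_zero (exz g) (K0 := fun l => (J l : ℕ)) (mem_box.2 fun l => (J l).isLt) ?_ H
          unfold exz
          rw [dif_pos fun l => (J l).isLt]
          exact hJ
      _ = (fam m r L).card * (m * r * (2 * H + 1) ^ m) := by
          rw [Finset.sum_const, smul_eq_mul]
      _ ≤ _ := Nat.mul_le_mul_right _ (card_fam m r L)
  refine ⟨W, hWc.trans ?_, ?_⟩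
  · have h1 : 2 * L + 1 ≤ (2 * C1 + 1) * h ^ C1 := by
      have : 1 ≤ h ^ C1 := Nat.one_le_pow _ _ hh1
      nlinarith
    calc (2 * L + 1) ^ P * (m * r * (2 * H + 1) ^ m) ≤
        ((2 * C1 + 1) * h ^ C1) ^ P * (m * r * (3 * H) ^ m) := by
          apply Nat.mul_le_mul (Nat.pow_le_pow_left h1 _)
          exact Nat.mul_le_mul_left _ (Nat.pow_le_pow_left (by omega) _)
      _ = ((2 * C1 + 1) ^ P * (m * r) * 3 ^ m) * H ^ m * h ^ (C1 * P) := by
          rw [mul_pow, mul_pow, ← pow_mul]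
          ring
      _ ≤ C2 * H ^ m * h ^ C2 := by
          apply Nat.mul_le_mul
          · exact Nat.mul_le_mul_right _ (by omega)
          · exact Nat.pow_le_pow_right hh1 (by omega)
  · intro y hy hex
    have h1 : ¬ ∀ g ∈ fam m r L, FF r (exz g) y ≠ 0 := fun h2 => hex fun n hn1 => by
      refine (hgen y hy h2 n hn1).trans (mul_le_mul_of_nonneg_right ?_ (Nat.cast_nonneg _))
      have h3 : C1 * h ^ C1 ≤ C2 * h ^ C2 :=
        Nat.mul_le_mul (by omega) (Nat.pow_le_pow_right hh1 (by omega))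
      exact_mod_cast h3
    push Not at h1
    obtain ⟨g, hg, h2⟩ := h1
    rw [hW, Finset.mem_biUnion]
    refine ⟨g, hg, Finset.mem_filter.2 ⟨Fintype.mem_piFinset.2 fun i => ?_, h2⟩⟩
    rw [Finset.mem_Icc]
    exact abs_le.1 (hy i)

theorem F_smul {k : ℕ} (a : Fin k → ℤ) {κ : ℤ} (hκ : κ ≠ 0) : F (fun i => κ * a i) = F a := by
  have h1 : ∀ A : Finset ℕ, SolutionFree (fun i => κ * a i) A ↔ SolutionFree a A := by
    intro A
    have key : ∀ x : Fin k → ℕ, ∑ i, (κ * a i) * (x i : ℤ) = κ * ∑ i, a i * (x i : ℤ) := by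
      intro x
      rw [Finset.mul_sum]
      exact Finset.sum_congr rfl (fun i _ => by ring)
    constructor
    · intro h x h1 h2 h3
      apply h x h1 h2
      rw [key, h3, mul_zero]
    · intro h x h1 h2 h3
      apply h x h1 h2
      rw [key] at h3
      rcases mul_eq_zero.1 h3 with h4 | h4
      · exact absurd h4 hκ
      · exact h4
  funext n
  unfold F
  simp only [h1]

/-- a basis with given first vector -/
theorem exists_basis {E : Type} [AddCommGroup E] [Module ℚ E] [FiniteDimensional ℚ E] {m : ℕ}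
    (h : Module.finrank ℚ E = m + 1) (x : E) (hx : x ≠ 0) :
    ∃ b : Module.Basis (Fin (m + 1)) ℚ E, b 0 = x := by
  classical
  have hs : LinearIndepOn ℚ id ({x} : Set E) := LinearIndepOn.singleton hx
  let B := Module.Basis.extend hs
  have hxm : x ∈ hs.extend (Set.subset_univ _) :=
    Module.Basis.subset_extend hs (Set.mem_singleton x)
  have : Fintype (hs.extend (Set.subset_univ ({x} : Set E))) :=
    FiniteDimensional.fintypeBasisIndex B
  have hcard : Fintype.card (hs.extend (Set.subset_univ ({x} : Set E))) = m + 1 := by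
    rw [← Module.finrank_eq_card_basis B, h]
  let e0 := Fintype.equivFinOfCardEq hcard
  let i0 : hs.extend (Set.subset_univ ({x} : Set E)) := ⟨x, hxm⟩
  let e := e0.trans (Equiv.swap (e0 i0) 0)
  have he : e i0 = 0 := by
    show (Equiv.swap (e0 i0) 0) (e0 i0) = 0
    rw [Equiv.swap_apply_left]
  refine ⟨B.reindex e, ?_⟩
  rw [Module.Basis.reindex_apply, ← he, Equiv.symm_apply_apply]
  exact Module.Basis.extend_apply_self hs i0

/-- common denominator -/
theorem denom {ι : Type} [Fintype ι] (f : ι → ℚ) : ∃ D : ℕ, 0 < D ∧ ∃ g : ι → ℤ, ∀ i,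
    (g i : ℚ) = D * f i := by
  classical
  refine ⟨∏ i, (f i).den, Finset.prod_pos fun i _ => (f i).den_pos,
    fun i => (f i).num * ∏ j ∈ univ.erase i, ((f j).den : ℤ), fun i => ?_⟩
  have h1 : (∏ j, (f j).den : ℕ) = (f i).den * ∏ j ∈ univ.erase i, (f j).den :=
    (Finset.mul_prod_erase univ _ (mem_univ i)).symm
  rw [h1]
  push_cast
  have h2 : ((f i).den : ℚ) * f i = (f i).num := Rat.den_mul_eq_num (f i)
  rw [mul_right_comm, h2]

/-- **Main theorem.** Almost all integral vectors in a rational subspace of the zero-sum space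
which contains a vector with exactly one negative coordinate. -/
theorem subspace {k : ℕ} (V : Submodule ℚ (Fin k → ℚ)) (hV : ∀ v ∈ V, ∑ i, v i = 0)
    (hd : 2 ≤ Module.finrank ℚ V) (hone : ∃ v ∈ V, ∃ i0, ∀ i, i ≠ i0 → 0 < v i) {ε : ℝ}
    (hε : 0 < ε) :
    ∃ C : ℕ, ∀ H : ℕ, 2 ≤ H →
      Nat.card {a : Fin k → ℤ // (∀ i, |a i| ≤ H) ∧ (fun i => (a i : ℚ)) ∈ V ∧
        ¬ ∀ n : ℕ, 1 ≤ n → (n : ℝ) ^ (1 - ε) ≤ ((C * Nat.log 2 H ^ C : ℕ) : ℝ) * F a n} ≤
          C * H ^ (Module.finrank ℚ V - 1) * Nat.log 2 H ^ C := by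
  classical
  obtain ⟨v, hvV, i0, hv⟩ := hone
  obtain ⟨m, hm⟩ : ∃ m, Module.finrank ℚ V = m + 1 := ⟨Module.finrank ℚ V - 1, by omega⟩
  have hm1 : 1 ≤ m := by omega
  have hk : 2 ≤ k := by
    have h1 : Module.finrank ℚ V ≤ Module.finrank ℚ (Fin k → ℚ) := Submodule.finrank_le V
    rw [Module.finrank_fin_fun] at h1
    omega
  obtain ⟨i1, hi1⟩ : ∃ i1 : Fin k, i1 ≠ i0 := by
    have : 1 < Fintype.card (Fin k) := by rw [Fintype.card_fin]; omega
    have := Fintype.one_lt_card_iff_nontrivial.mp this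
    exact exists_ne i0
  have hv0 : (⟨v, hvV⟩ : V) ≠ 0 := by
    intro h
    have h1 := congrArg Subtype.val h
    have h2 := congrFun h1 i1
    have h3 := hv i1 hi1
    simp only [ZeroMemClass.coe_zero, Pi.zero_apply] at h2
    rw [h2] at h3
    exact lt_irrefl _ h3
  obtain ⟨b, hb⟩ := exists_basis hm (⟨v, hvV⟩ : V) hv0
  -- integral basis vectors
  obtain ⟨D1, hD1, g1, hg1⟩ := denom fun p : Fin (m + 1) × Fin k => (b p.1 : Fin k → ℚ) p.2
  set α : Fin k → ℤ := fun i => g1 (0, i) with hαd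
  set β : Fin m → Fin k → ℤ := fun l i => g1 (l.succ, i) with hβd
  have hD1Q : (0 : ℚ) < D1 := by exact_mod_cast hD1
  have hgsum : ∀ j, ∑ i, g1 (j, i) = 0 := by
    intro j
    have h1 : ((∑ i, g1 (j, i) : ℤ) : ℚ) = 0 := by
      push_cast
      rw [Finset.sum_congr rfl fun i _ => hg1 (j, i), ← Finset.mul_sum, hV _ (b j).2, mul_zero]
    exact_mod_cast h1
  have hαpos : ∀ i, i ≠ i0 → 0 < α i := by
    intro i hi
    have h1 := hg1 (0, i)
    simp only at h1
    rw [hb] at h1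
    have h2 : (0 : ℚ) < (g1 (0, i) : ℚ) := by
      rw [h1]
      exact mul_pos hD1Q (hv i hi)
    exact_mod_cast h2
  obtain ⟨C, hC⟩ := count_tuples hk hm1 α β i0 hαpos (hgsum 0) (fun l => hgsum l.succ) hε
  -- coordinates
  have hext : ∀ j : Fin (m + 1), ∃ φ : (Fin k → ℚ) →ₗ[ℚ] ℚ, φ ∘ₗ V.subtype = b.coord j :=
    fun j => LinearMap.exists_extend (b.coord j)
  choose φ hφ using hext
  obtain ⟨D2, hD2, g2, hg2⟩ := denom fun p : Fin (m + 1) × Fin k => φ p.1 (Pi.single p.2 1)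
  have hD2Q : (0 : ℚ) < D2 := by exact_mod_cast hD2
  set yy : (Fin k → ℤ) → Fin (m + 1) → ℤ := fun a j => ∑ i, g2 (j, i) * a i with hyy
  have hφa : ∀ (a : Fin k → ℤ) j, ((yy a j : ℤ) : ℚ) = D2 * φ j (fun i => (a i : ℚ)) := by
    intro a j
    have h1 : φ j (fun i => (a i : ℚ)) = ∑ i, (a i : ℚ) * φ j (Pi.single i 1) := by
      have h2 : (fun i => (a i : ℚ)) = ∑ i, (a i : ℚ) • (Pi.single i (1 : ℚ) : Fin k → ℚ) := by
        funext i'
        rw [Finset.sum_apply]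
        simp [Pi.single_apply]
      rw [h2, map_sum]
      refine Finset.sum_congr rfl fun i _ => ?_
      rw [map_smul, smul_eq_mul]
    rw [h1, Finset.mul_sum]
    simp only [hyy]
    push_cast
    refine Finset.sum_congr rfl fun i _ => ?_
    rw [hg2 (j, i)]
    ring
  have hcomb : ∀ a : Fin k → ℤ, (fun i => (a i : ℚ)) ∈ V →
      comb α β (yy a) = fun i => ((D1 * D2 : ℕ) : ℤ) * a i := by
    intro a ha
    funext i
    have h1 : ((comb α β (yy a) i : ℤ) : ℚ) = ((D1 * D2 : ℕ) : ℚ) * (a i : ℚ) := by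
      have h2 := b.sum_repr (⟨_, ha⟩ : V)
      have h3 := congrArg (fun w : V => (w : Fin k → ℚ) i) h2
      simp only at h3
      have h4 : ∑ j, (b.repr (⟨_, ha⟩ : V)) j * (b j : Fin k → ℚ) i = (a i : ℚ) := by
        rw [← h3]
        rw [Submodule.coe_sum, Finset.sum_apply]
        refine Finset.sum_congr rfl fun j _ => ?_
        rw [Submodule.coe_smul, Pi.smul_apply, smul_eq_mul]
      have h5 : ∀ j, ((yy a j : ℤ) : ℚ) = D2 * (b.repr (⟨_, ha⟩ : V)) j := by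
        intro j
        rw [hφa a j]
        have h6 := congrArg (fun f : V →ₗ[ℚ] ℚ => f (⟨_, ha⟩ : V)) (hφ j)
        simp only [LinearMap.comp_apply, Submodule.subtype_apply, Module.Basis.coord_apply] at h6
        rw [h6]
      have h7 : ((comb α β (yy a) i : ℤ) : ℚ) = ∑ j : Fin (m + 1), (yy a j : ℚ) * (g1 (j, i) : ℚ) := by
        unfold comb
        rw [Fin.sum_univ_succ]
        push_cast
        congr 1
        exact Finset.sum_congr rfl fun l _ => by
          simp only [hβd]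
          ring
      rw [h7, ← h4]
      push_cast
      rw [Finset.mul_sum]
      refine Finset.sum_congr rfl fun j _ => ?_
      rw [h5 j, hg1 (j, i)]
      ring
    exact_mod_cast h1
  -- size of the coordinates
  set M : ℕ := (∑ j, ∑ i, |g2 (j, i)|).toNat + 2 with hM
  have hMc : ∀ j, ∑ i, |g2 (j, i)| ≤ (M : ℤ) := by
    intro j
    have h1 : ∑ i, |g2 (j, i)| ≤ ∑ j, ∑ i, |g2 (j, i)| :=
      Finset.single_le_sum (f := fun j => ∑ i, |g2 (j, i)|)
        (fun j _ => Finset.sum_nonneg fun i _ => abs_nonneg _) (mem_univ j)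
    have h2 : ∑ j, ∑ i, |g2 (j, i)| ≤ ((∑ j, ∑ i, |g2 (j, i)|).toNat : ℤ) := Int.self_le_toNat _
    rw [hM]
    push_cast
    linarith
  have hybd : ∀ (a : Fin k → ℤ) (H : ℕ), (∀ i, |a i| ≤ H) → ∀ j, |yy a j| ≤ ((M * H : ℕ) : ℤ) := by
    intro a H ha j
    simp only [hyy]
    refine (Finset.abs_sum_le_sum_abs _ _).trans ?_
    calc ∑ i, |g2 (j, i) * a i| ≤ ∑ i, |g2 (j, i)| * H := by
          refine Finset.sum_le_sum fun i _ => ?_
          rw [abs_mul]
          exact mul_le_mul_of_nonneg_left (ha i) (abs_nonneg _)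
      _ = (∑ i, |g2 (j, i)|) * H := by rw [Finset.sum_mul]
      _ ≤ (M : ℤ) * H := mul_le_mul_of_nonneg_right (hMc j) (by positivity)
      _ = ((M * H : ℕ) : ℤ) := by push_cast; ring
  set C3 := C * M ^ m * (Nat.log 2 M + 2) ^ C + C + C * (Nat.log 2 M + 2) ^ C with hC3
  refine ⟨C3, fun H hH => ?_⟩
  obtain ⟨W, hW1, hW2⟩ := hC (M * H) (by
    calc 2 ≤ H := hH
      _ ≤ M * H := Nat.le_mul_of_pos_left _ (by omega))
  have hh1 : 1 ≤ Nat.log 2 H := Nat.log_pos (by norm_num) hH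
  have hlog : Nat.log 2 (M * H) ≤ (Nat.log 2 M + 2) * Nat.log 2 H := by
    have hM0 : M ≠ 0 := by omega
    have h1 : M * H < 2 ^ (Nat.log 2 M + 1 + (Nat.log 2 H + 1)) := by
      rw [pow_add]
      exact Nat.mul_lt_mul'' (Nat.lt_pow_succ_log_self (by norm_num) M)
        (Nat.lt_pow_succ_log_self (by norm_num) H)
    have h2 : Nat.log 2 (M * H) < Nat.log 2 M + 1 + (Nat.log 2 H + 1) :=
      Nat.log_lt_of_lt_pow (by positivity) h1
    nlinarith
  have hCC : C * Nat.log 2 (M * H) ^ C ≤ C3 * Nat.log 2 H ^ C3 := by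
    calc C * Nat.log 2 (M * H) ^ C ≤ C * ((Nat.log 2 M + 2) * Nat.log 2 H) ^ C := by gcongr
      _ = C * (Nat.log 2 M + 2) ^ C * Nat.log 2 H ^ C := by
          rw [mul_pow]
          ring
      _ ≤ C3 * Nat.log 2 H ^ C3 :=
          Nat.mul_le_mul (by omega) (Nat.pow_le_pow_right hh1 (by omega))
  have hκ : ((D1 * D2 : ℕ) : ℤ) ≠ 0 := by
    exact_mod_cast (Nat.mul_pos hD1 hD2).ne'
  have hWn : Nat.card W = W.card := by rw [Nat.card_eq_fintype_card, Fintype.card_coe]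
  have hcard : Nat.card {a : Fin k → ℤ // (∀ i, |a i| ≤ H) ∧ (fun i => (a i : ℚ)) ∈ V ∧
      ¬ ∀ n : ℕ, 1 ≤ n → (n : ℝ) ^ (1 - ε) ≤ ((C3 * Nat.log 2 H ^ C3 : ℕ) : ℝ) * F a n} ≤
        W.card := by
    rw [← hWn]
    refine Nat.card_le_card_of_injective (fun a => (⟨yy a.1, hW2 (yy a.1)
      (hybd a.1 H a.2.1) (by
        rw [hcomb a.1 a.2.2.1, F_smul a.1 hκ]
        intro h0
        apply a.2.2.2
        intro n hn1
        refine (h0 n hn1).trans (mul_le_mul_of_nonneg_right ?_ (Nat.cast_nonneg _))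
        exact_mod_cast hCC)⟩ : W)) fun a a' haa' => ?_
    have h1 : yy a.1 = yy a'.1 := congrArg Subtype.val haa'
    have h2 := hcomb a.1 a.2.2.1
    rw [h1, hcomb a'.1 a'.2.2.1] at h2
    apply Subtype.ext
    funext i
    have h3 : ((D1 * D2 : ℕ) : ℤ) * a'.1 i = ((D1 * D2 : ℕ) : ℤ) * a.1 i := congrFun h2 i
    exact (mul_left_cancel₀ hκ h3).symm
  refine hcard.trans (hW1.trans ?_)
  have hmd : Module.finrank ℚ V - 1 = m := by omega
  rw [hmd]
  calc C * (M * H) ^ m * Nat.log 2 (M * H) ^ C ≤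
      C * (M * H) ^ m * ((Nat.log 2 M + 2) * Nat.log 2 H) ^ C := by gcongr
    _ = (C * M ^ m * (Nat.log 2 M + 2) ^ C) * H ^ m * Nat.log 2 H ^ C := by
        rw [mul_pow, mul_pow]
        ring
    _ ≤ C3 * H ^ m * Nat.log 2 H ^ C3 := by
        apply Nat.mul_le_mul
        · exact Nat.mul_le_mul_right _ (by omega)
        · exact Nat.pow_le_pow_right hh1 (by omega)

/-- the version for all large `n` -/
theorem subspace_ev {k : ℕ} (V : Submodule ℚ (Fin k → ℚ)) (hV : ∀ v ∈ V, ∑ i, v i = 0)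
    (hd : 2 ≤ Module.finrank ℚ V) (hone : ∃ v ∈ V, ∃ i0, ∀ i, i ≠ i0 → 0 < v i) {ε : ℝ}
    (hε : 0 < ε) :
    ∃ C : ℕ, ∀ H : ℕ, 2 ≤ H →
      Nat.card {a : Fin k → ℤ // (∀ i, |a i| ≤ H) ∧ (fun i => (a i : ℚ)) ∈ V ∧
        ¬ ∀ᶠ n : ℕ in atTop, (n : ℝ) ^ (1 - ε) ≤ F a n} ≤
          C * H ^ (Module.finrank ℚ V - 1) * Nat.log 2 H ^ C := by
  classical
  obtain ⟨C, hC⟩ := subspace V hV hd hone (half_pos hε)
  refine ⟨C, fun H hH => le_trans ?_ (hC H hH)⟩
  have hfin : Finite {a : Fin k → ℤ // (∀ i, |a i| ≤ H) ∧ (fun i => (a i : ℚ)) ∈ V ∧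
      ¬ ∀ n : ℕ, 1 ≤ n → (n : ℝ) ^ (1 - ε / 2) ≤ ((C * Nat.log 2 H ^ C : ℕ) : ℝ) * F a n} := by
    have h1 : ((Fintype.piFinset fun _ : Fin k => Finset.Icc (-(H : ℤ)) H : Finset _) :
        Set (Fin k → ℤ)).Finite := Finset.finite_toSet _
    exact (h1.subset (t := {a : Fin k → ℤ | (∀ i, |a i| ≤ H) ∧ (fun i => (a i : ℚ)) ∈ V ∧
      ¬ ∀ n : ℕ, 1 ≤ n → (n : ℝ) ^ (1 - ε / 2) ≤ ((C * Nat.log 2 H ^ C : ℕ) : ℝ) * F a n})
      (fun a ha => by
        rw [Finset.mem_coe, Fintype.mem_piFinset]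
        intro i
        rw [Finset.mem_Icc]
        exact abs_le.1 (ha.1 i))).to_subtype
  refine Nat.card_le_card_of_injective (fun a => ⟨a.1, a.2.1, a.2.2.1, ?_⟩) ?_
  · intro hall
    apply a.2.2.2
    set K : ℝ := ((C * Nat.log 2 H ^ C : ℕ) : ℝ) with hK
    have t : Tendsto (fun n : ℕ => (n : ℝ) ^ (ε / 2)) atTop atTop :=
      (tendsto_rpow_atTop (by linarith)).comp tendsto_natCast_atTop_atTop
    filter_upwards [t.eventually (eventually_ge_atTop K), eventually_ge_atTop 1] with n h1 h2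
    have hn : (0 : ℝ) < n := by exact_mod_cast h2
    have h3 := hall n h2
    have h4 : (n : ℝ) ^ (1 - ε / 2) = (n : ℝ) ^ (ε / 2) * (n : ℝ) ^ (1 - ε) := by
      rw [← Real.rpow_add hn]
      congr 1
      ring
    have h5 : (0 : ℝ) < (n : ℝ) ^ (ε / 2) := Real.rpow_pos_of_pos hn _
    rw [h4] at h3
    have h6 : (n : ℝ) ^ (ε / 2) * (n : ℝ) ^ (1 - ε) ≤ (n : ℝ) ^ (ε / 2) * F a.1 n :=
      h3.trans (mul_le_mul_of_nonneg_right h1 (Nat.cast_nonneg _))
    exact le_of_mul_le_mul_left h6 h5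
  · intro a b hab
    have h1 := Subtype.ext_iff.1 hab
    exact Subtype.ext h1

end Pool.Agent.Work.MP_e8d560_co.G
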