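import Pool.Agent.Work.MP_e8d560_co.NearOne

/-! Digit sets modulo `N` built from polynomial expressions in generic classes `t 0, ..., t (m-1)`
modulo `N`, for the coefficients `α i + ∑ l, β l i * t l`, `α` with one negative coordinate. -/

namespace Pool.Agent.Work.MP_e8d560_co.G

open Finset

/-- exponents below `r` -/
def box (m r : ℕ) : Finset (Fin m → ℕ) := Fintype.piFinset fun _ => Finset.range r

theorem mem_box {m r : ℕ} {K : Fin m → ℕ} : K ∈ box m r ↔ ∀ l, K l < r := by
  simp [box, Fintype.mem_piFinset]

/-- monomial -/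
def mon {R : Type} [CommSemiring R] {m : ℕ} (t : Fin m → R) (K : Fin m → ℕ) : R := ∏ l, t l ^ K l

/-- there is no nontrivial relation with coefficients at most `L` between the monomials in `t` with
exponents at most `r` -/
def SmallFree (N : ℕ) {m : ℕ} (t : Fin m → ZMod N) (r L : ℕ) : Prop :=
  ∀ f : (Fin m → ℕ) → ℤ, (∀ K, |f K| ≤ L) →
    ∑ K ∈ box m (r + 1), (f K : ZMod N) * mon t K = 0 → ∀ K ∈ box m (r + 1), f K = 0

/-- raise the exponent of the variable `l` -/
def up {m : ℕ} (l : Fin m) (K : Fin m → ℕ) : Fin m → ℕ := Function.update K l (K l + 1)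

/-- lower the exponent of the variable `l` -/
def dn {m : ℕ} (l : Fin m) (K : Fin m → ℕ) : Fin m → ℕ := Function.update K l (K l - 1)

theorem dn_up {m : ℕ} (l : Fin m) (K : Fin m → ℕ) : dn l (up l K) = K := by
  unfold dn up
  simp

theorem up_dn {m : ℕ} (l : Fin m) (K : Fin m → ℕ) (h : K l ≠ 0) : up l (dn l K) = K := by
  unfold dn up
  simp only [Function.update_self, Function.update_idem]
  rw [Nat.sub_add_cancel (Nat.one_le_iff_ne_zero.2 h), Function.update_eq_self]

theorem mon_up {R : Type} [CommSemiring R] {m : ℕ} (t : Fin m → R) (l : Fin m) (K : Fin m → ℕ) :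
    mon t (up l K) = t l * mon t K := by
  unfold mon up
  rw [← Finset.mul_prod_erase univ _ (mem_univ l), ← Finset.mul_prod_erase univ (fun j => t j ^ K j)
    (mem_univ l), Function.update_self, pow_succ, mul_comm (t l ^ K l), mul_assoc]
  congr 2
  refine Finset.prod_congr rfl fun j hj => ?_
  rw [Function.update_of_ne (Finset.ne_of_mem_erase hj)]

/-- the shifted coefficients -/
def sh {m : ℕ} (l : Fin m) (w : (Fin m → ℕ) → ℤ) (K : Fin m → ℕ) : ℤ :=
  if K l = 0 then 0 else w (dn l K)

theorem shift {R : Type} [CommRing R] {m r : ℕ} (t : Fin m → R) (l : Fin m)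
    (w : (Fin m → ℕ) → ℤ) (hw : ∀ K, K ∉ box m r → w K = 0) :
    t l * ∑ K ∈ box m (r + 1), (w K : R) * mon t K =
      ∑ K ∈ box m (r + 1), (sh l w K : R) * mon t K := by
  classical
  have hsub : box m r ⊆ box m (r + 1) := fun K hK => mem_box.2 fun j => by
    have := mem_box.1 hK j
    omega
  have h1 : ∑ K ∈ box m (r + 1), (w K : R) * mon t K = ∑ K ∈ box m r, (w K : R) * mon t K := by
    refine (Finset.sum_subset hsub fun K _ hK => ?_).symm
    rw [hw K hK]
    simp
  have hinj : Set.InjOn (up l) (box m r : Set (Fin m → ℕ)) := fun K _ K' _ h => by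
    rw [← dn_up l K, ← dn_up l K', h]
  have h2 : ∑ K ∈ box m (r + 1), (sh l w K : R) * mon t K =
      ∑ K ∈ (box m r).image (up l), (sh l w K : R) * mon t K := by
    refine (Finset.sum_subset ?_ fun K _ hK => ?_).symm
    · intro K hK
      obtain ⟨J, hJ, rfl⟩ := Finset.mem_image.1 hK
      refine mem_box.2 fun j => ?_
      have h3 := mem_box.1 hJ j
      unfold up
      by_cases hj : j = l
      · subst hj
        rw [Function.update_self]
        omega
      · rw [Function.update_of_ne hj]
        omega
    · unfold sh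
      by_cases h0 : K l = 0
      · rw [if_pos h0]
        simp
      · rw [if_neg h0, hw]
        · simp
        · intro h4
          exact hK (Finset.mem_image.2 ⟨dn l K, h4, up_dn l K h0⟩)
  rw [h1, h2, Finset.sum_image hinj, Finset.mul_sum]
  refine Finset.sum_congr rfl fun K _ => ?_
  rw [mon_up]
  have h5 : sh l w (up l K) = w K := by
    unfold sh
    rw [if_neg, dn_up]
    unfold up
    rw [Function.update_self]
    omega
  rw [h5]
  ring

/-- extension by zero of a coefficient vector -/
def ext {m r : ℕ} (v : (Fin m → Fin r) → ℕ) (K : Fin m → ℕ) : ℤ :=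
  if h : ∀ l, K l < r then (v fun l => ⟨K l, h l⟩ : ℤ) else 0

theorem ext_zero {m r : ℕ} (v : (Fin m → Fin r) → ℕ) (K : Fin m → ℕ) (h : K ∉ box m r) :
    ext v K = 0 := by
  unfold ext
  rw [dif_neg fun h1 => h (mem_box.2 h1)]

/-- the number of a coefficient vector -/
def vl {m r : ℕ} (N : ℕ) (t : Fin m → ZMod N) (v : (Fin m → Fin r) → ℕ) : ZMod N :=
  ∑ K ∈ box m (r + 1), (ext v K : ZMod N) * mon t K

theorem digits_of_free {k m r N Y L : ℕ} [NeZero N] (α : Fin k → ℤ) (β : Fin m → Fin k → ℤ)
    (hβ : ∀ l, ∑ i, β l i = 0) (t : Fin m → ZMod N)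
    (hL : (∑ i, |α i| + ∑ l, ∑ i, |β l i|) * Y ≤ L) (hYL : Y ≤ L) (hfree : SmallFree N t r L)
    (B : Finset ℕ) (hB : B ⊆ range Y) (i0 : Fin k)
    (hB2 : ∀ x : Fin k → ℕ, (∀ i, x i ∈ B) → ∑ i, α i * (x i : ℤ) = 0 → ∀ i, x i = x i0) :
    ∃ D : Finset ℕ, D ⊆ range N ∧ D.card = B.card ^ (r ^ m) ∧ ∀ (a : Fin k → ℤ) (u : ZMod N),
      IsUnit u → (∀ i, (a i : ZMod N) = u * ((α i : ZMod N) + ∑ l, (β l i : ZMod N) * t l)) →
      ∀ x : Fin k → ℕ, (∀ i, x i ∈ D) → (N : ℤ) ∣ ∑ i, a i * (x i : ℤ) → ∀ i, x i = x i0 := by
  classical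
  have hbd : ∀ v : (Fin m → Fin r) → ℕ, (∀ J, v J ∈ B) → ∀ K, 0 ≤ ext v K ∧ ext v K ≤ Y := by
    intro v hv K
    unfold ext
    split_ifs with h
    · have h1 := Finset.mem_range.1 (hB (hv fun l => ⟨K l, h l⟩))
      constructor
      · positivity
      · exact_mod_cast h1.le
    · constructor
      · exact le_refl 0
      · positivity
  have hinj : ∀ v w : (Fin m → Fin r) → ℕ, (∀ J, v J ∈ B) → (∀ J, w J ∈ B) →
      vl N t v = vl N t w → v = w := by
    intro v w hv hw h
    have h1 := hfree (fun K => ext v K - ext w K) (fun K => by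
      have h2 := hbd v hv K
      have h3 := hbd w hw K
      have h4 : (Y : ℤ) ≤ L := by exact_mod_cast hYL
      rw [abs_le]
      constructor <;> linarith) (by
      have h2 : ∑ K ∈ box m (r + 1), ((ext v K - ext w K : ℤ) : ZMod N) * mon t K =
          vl N t v - vl N t w := by
        unfold vl
        rw [← Finset.sum_sub_distrib]
        refine Finset.sum_congr rfl fun K _ => ?_
        push_cast
        ring
      rw [h2, h, sub_self])
    funext J
    have h2 := h1 (fun l => (J l : ℕ)) (mem_box.2 fun l => by
      have := (J l).isLt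
      omega)
    unfold ext at h2
    rw [dif_pos fun l => (J l).isLt, dif_pos fun l => (J l).isLt] at h2
    have h3 : ((v J : ℕ) : ℤ) = ((w J : ℕ) : ℤ) := by
      have h4 : (fun l => (⟨(J l : ℕ), (J l).isLt⟩ : Fin r)) = J := rfl
      rw [h4] at h2
      linarith
    exact_mod_cast h3
  set V : Finset ((Fin m → Fin r) → ℕ) := Fintype.piFinset fun _ => B with hV
  have hVm : ∀ v, v ∈ V ↔ ∀ J, v J ∈ B := fun v => by rw [hV, Fintype.mem_piFinset]
  refine ⟨V.image fun v => (vl N t v).val, ?_, ?_, ?_⟩
  · intro x hx
    obtain ⟨v, _, rfl⟩ := Finset.mem_image.1 hx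
    exact Finset.mem_range.2 (ZMod.val_lt _)
  · rw [Finset.card_image_of_injOn]
    · rw [hV, Fintype.card_piFinset, Finset.prod_const, Finset.card_univ, Fintype.card_fun,
        Fintype.card_fin, Fintype.card_fin]
    · intro v hv w hw h
      exact hinj v w ((hVm v).1 hv) ((hVm w).1 hw) (ZMod.val_injective N h)
  · intro a u hu ha x hx hdvd
    have h1 : ∀ i, ∃ v ∈ V, (vl N t v).val = x i := fun i => Finset.mem_image.1 (hx i)
    choose v hv hvx using h1
    have hvB : ∀ i J, v i J ∈ B := fun i => (hVm (v i)).1 (hv i)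
    have hxv : ∀ i, ((x i : ℕ) : ZMod N) = vl N t (v i) := fun i => by
      rw [← hvx i, ZMod.natCast_zmod_val]
    -- the equation modulo N
    have h2 : ∑ i, ((α i : ZMod N) + ∑ l, (β l i : ZMod N) * t l) * vl N t (v i) = 0 := by
      have h3 : ((∑ i, a i * (x i : ℤ) : ℤ) : ZMod N) = 0 :=
        (ZMod.intCast_zmod_eq_zero_iff_dvd _ _).2 hdvd
      push_cast at h3
      have h4 : ∑ i, (a i : ZMod N) * ((x i : ℕ) : ZMod N) =
          u * ∑ i, ((α i : ZMod N) + ∑ l, (β l i : ZMod N) * t l) * vl N t (v i) := by
        rw [Finset.mul_sum]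
        refine Finset.sum_congr rfl fun i _ => ?_
        rw [ha i, hxv i]
        ring
      rw [h4] at h3
      exact (hu.mul_right_eq_zero).1 h3
    -- the coefficients
    set g : (Fin m → ℕ) → ℤ := fun K =>
      ∑ i, α i * ext (v i) K + ∑ l, ∑ i, β l i * sh l (ext (v i)) K with hg
    have h3 : ∑ K ∈ box m (r + 1), (g K : ZMod N) * mon t K = 0 := by
      rw [← h2]
      have e1 : ∀ i, ((α i : ZMod N) + ∑ l, (β l i : ZMod N) * t l) * vl N t (v i) =
          ∑ K ∈ box m (r + 1), ((α i * ext (v i) K + ∑ l, β l i * sh l (ext (v i)) K : ℤ) : ZMod N) *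
            mon t K := by
        intro i
        have e2 : ∀ l, t l * vl N t (v i) =
            ∑ K ∈ box m (r + 1), (sh l (ext (v i)) K : ZMod N) * mon t K := fun l =>
          shift t l (ext (v i)) (ext_zero (v i))
        rw [add_mul, Finset.sum_mul]
        have e3 : ∀ l, (β l i : ZMod N) * t l * vl N t (v i) =
            ∑ K ∈ box m (r + 1), (β l i : ZMod N) * ((sh l (ext (v i)) K : ZMod N) * mon t K) := by
          intro l
          rw [mul_assoc, e2 l, Finset.mul_sum]
        rw [Finset.sum_congr rfl fun l _ => e3 l, Finset.sum_comm]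
        unfold vl
        rw [Finset.mul_sum, ← Finset.sum_add_distrib]
        refine Finset.sum_congr rfl fun K _ => ?_
        push_cast
        rw [add_mul, Finset.sum_mul]
        congr 1
        · ring
        · exact Finset.sum_congr rfl fun l _ => by ring
      rw [Finset.sum_congr rfl fun i _ => e1 i, Finset.sum_comm]
      refine Finset.sum_congr rfl fun K _ => ?_
      rw [← Finset.sum_mul]
      congr 1
      simp only [hg]
      rw [Finset.sum_comm (s := (univ : Finset (Fin m))), ← Finset.sum_add_distrib]
      push_cast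
      rfl
    have hshbd : ∀ i l K, |sh l (ext (v i)) K| ≤ Y := by
      intro i l K
      unfold sh
      split_ifs
      · rw [abs_zero]
        positivity
      · have := hbd (v i) (hvB i) (dn l K)
        rw [abs_of_nonneg this.1]
        exact this.2
    have hgbd : ∀ K, |g K| ≤ L := by
      intro K
      have e1 : |∑ i, α i * ext (v i) K| ≤ (∑ i, |α i|) * Y := by
        refine (Finset.abs_sum_le_sum_abs _ _).trans ?_
        rw [Finset.sum_mul]
        refine Finset.sum_le_sum fun i _ => ?_
        rw [abs_mul]
        refine mul_le_mul_of_nonneg_left ?_ (abs_nonneg _)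
        have := hbd (v i) (hvB i) K
        rw [abs_of_nonneg this.1]
        exact this.2
      have e2 : |∑ l, ∑ i, β l i * sh l (ext (v i)) K| ≤ (∑ l, ∑ i, |β l i|) * Y := by
        refine (Finset.abs_sum_le_sum_abs _ _).trans ?_
        rw [Finset.sum_mul]
        refine Finset.sum_le_sum fun l _ => ?_
        refine (Finset.abs_sum_le_sum_abs _ _).trans ?_
        rw [Finset.sum_mul]
        refine Finset.sum_le_sum fun i _ => ?_
        rw [abs_mul]
        exact mul_le_mul_of_nonneg_left (hshbd i l K) (abs_nonneg _)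
      refine (abs_add_le _ _).trans ?_
      calc |∑ i, α i * ext (v i) K| + |∑ l, ∑ i, β l i * sh l (ext (v i)) K| ≤
          (∑ i, |α i|) * Y + (∑ l, ∑ i, |β l i|) * Y := add_le_add e1 e2
        _ = (∑ i, |α i| + ∑ l, ∑ i, |β l i|) * Y := by ring
        _ ≤ L := hL
    have hg0 := hfree g hgbd h3
    -- all coefficient vectors agree
    have key : ∀ n, ∀ K : Fin m → ℕ, ∑ l, K l = n → (∀ l, K l < r) →
        ∀ i, ext (v i) K = ext (v i0) K := by
      intro n
      induction n using Nat.strong_induction_on with
      | _ n ih =>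
        intro K hK hKr
        have e1 := hg0 K (mem_box.2 fun l => by
          have := hKr l
          omega)
        have e2 : ∀ l, ∑ i, β l i * sh l (ext (v i)) K = 0 := by
          intro l
          unfold sh
          by_cases h0 : K l = 0
          · simp only [if_pos h0, mul_zero, Finset.sum_const_zero]
          · simp only [if_neg h0]
            have e3 : ∀ i, ext (v i) (dn l K) = ext (v i0) (dn l K) := by
              refine ih (∑ j, dn l K j) ?_ (dn l K) rfl ?_
              · rw [← hK]
                refine Finset.sum_lt_sum (fun j _ => ?_) ⟨l, mem_univ l, ?_⟩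
                · unfold dn
                  by_cases hj : j = l
                  · subst hj
                    rw [Function.update_self]
                    omega
                  · rw [Function.update_of_ne hj]
                · unfold dn
                  rw [Function.update_self]
                  omega
              · intro j
                have h5 := hKr j
                unfold dn
                by_cases hj : j = l
                · subst hj
                  rw [Function.update_self]
                  omega
                · rw [Function.update_of_ne hj]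
                  exact h5
            rw [Finset.sum_congr rfl fun i _ => by rw [e3 i], ← Finset.sum_mul, hβ l, zero_mul]
        simp only [hg] at e1
        rw [Finset.sum_eq_zero fun l _ => e2 l, add_zero] at e1
        have e4 : ∀ i, ext (v i) K = ((v i (fun l => ⟨K l, hKr l⟩) : ℕ) : ℤ) := fun i => by
          unfold ext
          rw [dif_pos hKr]
        have e5 := hB2 (fun i => v i (fun l => ⟨K l, hKr l⟩)) (fun i => hvB i _) (by
          rw [← e1]
          exact Finset.sum_congr rfl fun i _ => by rw [e4 i])
        intro i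
        rw [e4 i, e4 i0]
        exact_mod_cast e5 i
    intro i
    rw [← hvx i, ← hvx i0]
    have h6 : v i = v i0 := by
      funext J
      have h7 := key _ (fun l => (J l : ℕ)) rfl (fun l => (J l).isLt) i
      unfold ext at h7
      rw [dif_pos fun l => (J l).isLt, dif_pos fun l => (J l).isLt] at h7
      exact_mod_cast h7
    rw [h6]

end Pool.Agent.Work.MP_e8d560_co.G
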