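import Pool.Agent.Work.MP_e8d560_co.G.Count
import Pool.Agent.Work.MP_e8d560_co.Genus

/-! The whole zero-sum space, rational hyperplanes, exact orders, and the sharpness of the bound. -/

namespace Pool.Agent.Work.MP_e8d560_co.G

open Finset Filter

/-- the functional `∑ γ i * v i` -/
def fn {k : ℕ} (γ : Fin k → ℚ) : (Fin k → ℚ) →ₗ[ℚ] ℚ where
  toFun v := ∑ i, γ i * v i
  map_add' v w := by
    simp only [Pi.add_apply, mul_add, Finset.sum_add_distrib]
  map_smul' c v := by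
    simp only [Pi.smul_apply, smul_eq_mul, RingHom.id_apply, Finset.mul_sum]
    exact Finset.sum_congr rfl fun i _ => by ring

theorem fn_apply {k : ℕ} (γ v : Fin k → ℚ) : fn γ v = ∑ i, γ i * v i := rfl

theorem full {k : ℕ} (hk : 3 ≤ k) {ε : ℝ} (hε : 0 < ε) :
    ∃ C : ℕ, ∀ H : ℕ, 2 ≤ H →
      Nat.card {a : Fin k → ℤ // (∀ i, |a i| ≤ H) ∧ ∑ i, a i = 0 ∧
        ¬ ∀ᶠ n : ℕ in atTop, (n : ℝ) ^ (1 - ε) ≤ F a n} ≤
          C * H ^ (k - 2) * Nat.log 2 H ^ C := by
  classical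
  set V : Submodule ℚ (Fin k → ℚ) := LinearMap.ker (fn fun _ => 1) with hV
  have hmem : ∀ v, v ∈ V ↔ ∑ i, v i = 0 := fun v => by
    rw [hV, LinearMap.mem_ker, fn_apply]
    simp only [one_mul]
  let z : Fin k := ⟨0, by omega⟩
  have hsurj : Function.Surjective (fn fun _ : Fin k => (1 : ℚ)) := by
    intro c
    refine ⟨Pi.single z c, ?_⟩
    rw [fn_apply]
    simp
  have hfr : Module.finrank ℚ V = k - 1 := by
    have h1 := LinearMap.finrank_range_add_finrank_ker (fn fun _ : Fin k => (1 : ℚ))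
    rw [LinearMap.range_eq_top.2 hsurj, finrank_top, Module.finrank_self, Module.finrank_fin_fun]
      at h1
    rw [hV]
    omega
  have hone : ∃ v ∈ V, ∃ i0, ∀ i, i ≠ i0 → (0 : ℚ) < v i := by
    refine ⟨fun i => 1 - if i = z then (k : ℚ) else 0, ?_, z, ?_⟩
    · rw [hmem, Finset.sum_sub_distrib, Finset.sum_ite_eq', if_pos (mem_univ _)]
      simp
    · intro i hi
      show (0 : ℚ) < 1 - if i = z then (k : ℚ) else 0
      rw [if_neg hi]
      norm_num
  obtain ⟨C, hC⟩ := subspace_ev V (fun v hv => (hmem v).1 hv) (by omega) hone hε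
  refine ⟨C, fun H hH => ?_⟩
  have h1 := hC H hH
  rw [hfr, show k - 1 - 1 = k - 2 by omega] at h1
  refine le_trans (le_of_eq ?_) h1
  refine Nat.card_congr (Equiv.subtypeEquivRight fun a => ?_)
  rw [hmem]
  have h2 : ∑ i, ((a i : ℤ) : ℚ) = 0 ↔ ∑ i, a i = 0 := by
    rw [← Int.cast_sum, Int.cast_eq_zero]
  rw [h2]

theorem hyper {k : ℕ} (hk : 4 ≤ k) (γ : Fin k → ℤ) (hγ : ∃ p j q, γ p < γ j ∧ γ j < γ q) {ε : ℝ}
    (hε : 0 < ε) :
    ∃ C : ℕ, ∀ H : ℕ, 2 ≤ H →
      Nat.card {a : Fin k → ℤ // (∀ i, |a i| ≤ H) ∧ ∑ i, a i = 0 ∧ ∑ i, γ i * a i = 0 ∧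
        ¬ ∀ᶠ n : ℕ in atTop, (n : ℝ) ^ (1 - ε) ≤ F a n} ≤
          C * H ^ (k - 3) * Nat.log 2 H ^ C := by
  classical
  obtain ⟨p, j, q, hpj, hjq⟩ := hγ
  set g : Fin k → ℚ := fun i => (γ i : ℚ) with hg
  have hpjQ : g p < g j := by
    show ((γ p : ℤ) : ℚ) < ((γ j : ℤ) : ℚ)
    exact_mod_cast hpj
  have hjqQ : g j < g q := by
    show ((γ j : ℤ) : ℚ) < ((γ q : ℤ) : ℚ)
    exact_mod_cast hjq
  have hpq : p ≠ q := fun h => by
    rw [h] at hpj
    omega
  have hpj' : p ≠ j := fun h => by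
    rw [h] at hpj
    omega
  have hqj' : q ≠ j := fun h => by
    rw [h] at hjq
    omega
  set Φ : (Fin k → ℚ) →ₗ[ℚ] ℚ × ℚ := (fn fun _ => 1).prod (fn g) with hΦ
  set V : Submodule ℚ (Fin k → ℚ) := LinearMap.ker Φ with hV
  have hΦv : ∀ v, Φ v = (∑ i, v i, ∑ i, g i * v i) := fun v => by
    have h1 : Φ v = (fn (fun _ => 1) v, fn g v) := rfl
    rw [h1, fn_apply, fn_apply]
    simp only [one_mul]
  have hmem : ∀ v, v ∈ V ↔ ∑ i, v i = 0 ∧ ∑ i, g i * v i = 0 := fun v => by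
    rw [hV, LinearMap.mem_ker, hΦv, Prod.mk_eq_zero]
  have hsurj : Function.Surjective Φ := by
    rintro ⟨c, d⟩
    have hne : g q - g p ≠ 0 := by linarith
    refine ⟨Pi.single p ((c * g q - d) / (g q - g p)) + Pi.single q ((d - c * g p) / (g q - g p)), ?_⟩
    rw [map_add, hΦv, hΦv]
    have e1 : ∀ (w : Fin k → ℚ) (i0 : Fin k) (c : ℚ),
        ∑ i, w i * (Pi.single i0 c : Fin k → ℚ) i = w i0 * c := by
      intro w i0 c
      rw [Finset.sum_eq_single i0]
      · rw [Pi.single_eq_same]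
      · intro i _ hi
        rw [Pi.single_eq_of_ne hi, mul_zero]
      · intro h
        exact absurd (mem_univ _) h
    have e2 : ∀ (i0 : Fin k) (c : ℚ), ∑ i, (Pi.single i0 c : Fin k → ℚ) i = c := by
      intro i0 c
      have h1 := e1 (fun _ => 1) i0 c
      simp only [one_mul] at h1
      exact h1
    rw [e2, e2, e1, e1]
    refine Prod.ext ?_ ?_
    · show (c * g q - d) / (g q - g p) + (d - c * g p) / (g q - g p) = c
      field_simp
      ring
    · show g p * ((c * g q - d) / (g q - g p)) + g q * ((d - c * g p) / (g q - g p)) = d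
      field_simp
      ring
  have hfr : Module.finrank ℚ V = k - 2 := by
    have h1 := LinearMap.finrank_range_add_finrank_ker Φ
    rw [LinearMap.range_eq_top.2 hsurj, finrank_top, Module.finrank_prod, Module.finrank_self,
      Module.finrank_fin_fun] at h1
    rw [hV]
    omega
  have hone : ∃ v ∈ V, ∃ i0, ∀ i, i ≠ i0 → (0 : ℚ) < v i := by
    set S : ℚ := ∑ i ∈ ((univ.erase p).erase q).erase j, (g i - g j) with hS
    set vp : ℚ := (|S| + 1) / (g j - g p) with hvp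
    set vq : ℚ := (|S| + 1 - S) / (g q - g j) with hvq
    have hvp0 : 0 < vp := div_pos (by positivity) (by linarith)
    have hvq0 : 0 < vq := div_pos (by linarith [le_abs_self S]) (by linarith)
    set w : Fin k → ℚ := fun i => if i = p then vp else if i = q then vq else 1 with hw
    have hw0 : ∀ i, 0 < w i := by
      intro i
      simp only [hw]
      split_ifs
      · exact hvp0
      · exact hvq0
      · norm_num
    have hwg : ∑ i ∈ univ.erase j, w i * (g i - g j) = 0 := by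
      have h1 : ∑ i ∈ univ.erase j, w i * (g i - g j) = ∑ i, w i * (g i - g j) := by
        rw [← Finset.sum_erase_add univ _ (mem_univ j), sub_self, mul_zero, add_zero]
      rw [h1, ← Finset.add_sum_erase univ _ (mem_univ p),
        ← Finset.add_sum_erase (univ.erase p) _ (Finset.mem_erase.2 ⟨hpq.symm, mem_univ q⟩),
        ← Finset.add_sum_erase ((univ.erase p).erase q) _
          (Finset.mem_erase.2 ⟨hqj'.symm, Finset.mem_erase.2 ⟨hpj'.symm, mem_univ j⟩⟩)]
      have h2 : ∑ i ∈ ((univ.erase p).erase q).erase j, w i * (g i - g j) = S := by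
        rw [hS]
        refine Finset.sum_congr rfl fun i hi => ?_
        have h3 : i ≠ q := fun h => by
          subst h
          simp at hi
        have h4 : i ≠ p := fun h => by
          subst h
          simp at hi
        simp only [hw]
        rw [if_neg h4, if_neg h3, one_mul]
      rw [h2]
      have h5 : w p = vp := if_pos rfl
      have h6 : w q = vq := (if_neg hpq.symm).trans (if_pos rfl)
      rw [h5, h6, sub_self, mul_zero, hvp, hvq]
      have h7 : g j - g p ≠ 0 := by linarith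
      have h8 : g q - g j ≠ 0 := by linarith
      have h9 : (|S| + 1) / (g j - g p) * (g p - g j) = -(|S| + 1) := by
        rw [← neg_sub (g j) (g p), mul_neg, div_mul_cancel₀ _ h7]
      have h10 : (|S| + 1 - S) / (g q - g j) * (g q - g j) = |S| + 1 - S := div_mul_cancel₀ _ h8
      rw [h9, h10]
      ring
    refine ⟨fun i => if i = j then -∑ i' ∈ univ.erase j, w i' else w i, ?_, j, ?_⟩
    · rw [hmem]
      constructor
      · rw [← Finset.add_sum_erase univ _ (mem_univ j), if_pos rfl]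
        have h1 : ∑ i ∈ univ.erase j, (if i = j then -∑ i' ∈ univ.erase j, w i' else w i) =
            ∑ i ∈ univ.erase j, w i := Finset.sum_congr rfl fun i hi => by
          rw [if_neg (Finset.ne_of_mem_erase hi)]
        rw [h1]
        ring
      · rw [← Finset.add_sum_erase univ _ (mem_univ j), if_pos rfl]
        have h1 : ∑ i ∈ univ.erase j, g i * (if i = j then -∑ i' ∈ univ.erase j, w i' else w i) =
            ∑ i ∈ univ.erase j, g i * w i := Finset.sum_congr rfl fun i hi => by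
          rw [if_neg (Finset.ne_of_mem_erase hi)]
        rw [h1]
        have h2 : ∑ i ∈ univ.erase j, w i * (g i - g j) =
            ∑ i ∈ univ.erase j, g i * w i - g j * ∑ i ∈ univ.erase j, w i := by
          rw [Finset.mul_sum, ← Finset.sum_sub_distrib]
          exact Finset.sum_congr rfl fun i _ => by ring
        rw [h2] at hwg
        linarith
    · intro i hi
      show 0 < if i = j then -∑ i' ∈ univ.erase j, w i' else w i
      rw [if_neg hi]
      exact hw0 i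
  obtain ⟨C, hC⟩ := subspace_ev V (fun v hv => ((hmem v).1 hv).1) (by omega) hone hε
  refine ⟨C, fun H hH => ?_⟩
  have h1 := hC H hH
  rw [hfr, show k - 2 - 1 = k - 3 by omega] at h1
  refine le_trans (le_of_eq ?_) h1
  refine Nat.card_congr (Equiv.subtypeEquivRight fun a => ?_)
  rw [hmem]
  have h2 : ∑ i, ((a i : ℤ) : ℚ) = 0 ↔ ∑ i, a i = 0 := by
    rw [← Int.cast_sum, Int.cast_eq_zero]
  have h3 : ∑ i, g i * ((a i : ℤ) : ℚ) = 0 ↔ ∑ i, γ i * a i = 0 := by
    have h4 : ∑ i, g i * ((a i : ℤ) : ℚ) = ((∑ i, γ i * a i : ℤ) : ℚ) := by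
      push_cast
      rfl
    rw [h4, Int.cast_eq_zero]
  rw [h2, h3, and_assoc]

/-- a uniform version of the exclusion of small exponents -/
theorem not_comparable {k : ℕ} (a : Fin k → ℤ) {ε : ℝ} (hε : 0 < ε) {α : ℝ} (hα : α ≤ 1 - ε)
    (hc : Comparable (F a) α) :
    ∑ i, a i = 0 ∧ ¬ ∀ᶠ n : ℕ in atTop, (n : ℝ) ^ (1 - ε / 2) ≤ F a n := by
  constructor
  · by_contra hne
    obtain ⟨M, hM, hF⟩ := linear a hne
    refine growth hc hM le_rfl (c := 1) (e := 1) one_pos (by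
      push_cast
      linarith) (fun D _ => ?_)
    rw [Real.rpow_one, one_mul, pow_one]
    exact_mod_cast hF D
  · intro hev
    obtain ⟨c₁, c₂, h1, h2, h3⟩ := hc
    have hc2 : 0 < c₂ := lt_of_lt_of_le h1 h2
    have t : Tendsto (fun n : ℕ => (n : ℝ) ^ ((1 - ε / 2) - α)) atTop atTop :=
      (tendsto_rpow_atTop (by linarith)).comp tendsto_natCast_atTop_atTop
    obtain ⟨n, h4, h5, h6, h7⟩ := (hev.and (h3.and ((t.eventually (eventually_gt_atTop c₂)).and
      (eventually_ge_atTop 1)))).exists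
    have hn : (0 : ℝ) < n := by exact_mod_cast h7
    have h8 : (n : ℝ) ^ (1 - ε / 2) ≤ c₂ * (n : ℝ) ^ α := h4.trans h5.2
    have h9 : (n : ℝ) ^ (1 - ε / 2) = (n : ℝ) ^ ((1 - ε / 2) - α) * (n : ℝ) ^ α := by
      rw [← Real.rpow_add hn]
      congr 1
      ring
    rw [h9] at h8
    have h10 : (0 : ℝ) < (n : ℝ) ^ α := Real.rpow_pos_of_pos hn _
    exact absurd (le_of_mul_le_mul_right h8 h10) (not_le.2 h6)

/-- the vectors with a zero-sum pair -/
def vv {m : ℕ} (c : Fin (m + 2) → ℕ) : Fin (m + 4) → ℤ :=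
  Fin.cons ((c 0 : ℤ) + 1) (Fin.cons (-((c 0 : ℤ) + 1))
    (Fin.snoc (fun j : Fin (m + 1) => ((c j.succ : ℤ) + 1)) (-∑ j : Fin (m + 1), ((c j.succ : ℤ) + 1))))

theorem vv_sum {m : ℕ} (c : Fin (m + 2) → ℕ) : ∑ i, vv c i = 0 := by
  unfold vv
  rw [Fin.sum_cons, Fin.sum_cons, Fin.sum_snoc]
  ring

theorem vv_pair {m : ℕ} (c : Fin (m + 2) → ℕ) :
    ∑ i ∈ ({0, 1} : Finset (Fin (m + 4))), vv c i = 0 := by
  rw [Finset.sum_pair (fun h => by
    have h1 := congrArg Fin.val h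
    simp at h1)]
  show ((c 0 : ℤ) + 1) + (-((c 0 : ℤ) + 1)) = 0
  ring

theorem sharp (m : ℕ) : ∃ C : ℕ, ∀ H : ℕ, m + 4 ≤ H → H ^ (m + 2) ≤
    C * Nat.card {a : Fin (m + 4) → ℤ // (∀ i, a i ≠ 0 ∧ |a i| ≤ H) ∧ ∑ i, a i = 0 ∧
      ∃ K : ℝ, ∀ n : ℕ, (F a n : ℝ) ≤ K * √n} := by
  classical
  refine ⟨(2 * (m + 4)) ^ (m + 2), fun H hH => ?_⟩
  set q := H / (m + 4) with hq
  have hq1 : 1 ≤ q := (Nat.one_le_div_iff (by omega)).2 hH
  have hqH : (m + 4) * q ≤ H := Nat.mul_div_le _ _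
  have hHq : H ≤ 2 * (m + 4) * q := by
    have h1 : H < (m + 4) * (q + 1) := Nat.lt_mul_div_succ H (by omega)
    nlinarith
  have hfin : Finite {a : Fin (m + 4) → ℤ // (∀ i, a i ≠ 0 ∧ |a i| ≤ H) ∧ ∑ i, a i = 0 ∧
      ∃ K : ℝ, ∀ n : ℕ, (F a n : ℝ) ≤ K * √n} := by
    have h1 : ((Fintype.piFinset fun _ : Fin (m + 4) => Finset.Icc (-(H : ℤ)) H : Finset _) :
        Set (Fin (m + 4) → ℤ)).Finite := Finset.finite_toSet _
    exact (h1.subset (t := {a : Fin (m + 4) → ℤ | (∀ i, a i ≠ 0 ∧ |a i| ≤ H) ∧ ∑ i, a i = 0 ∧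
      ∃ K : ℝ, ∀ n : ℕ, (F a n : ℝ) ≤ K * √n}) (fun a ha => by
        rw [Finset.mem_coe, Fintype.mem_piFinset]
        intro i
        rw [Finset.mem_Icc]
        exact abs_le.1 (ha.1 i).2)).to_subtype
  have hval : ∀ c : Fin (m + 2) → Fin q, ∀ j, ((c j : ℕ) : ℤ) + 1 ≤ q := by
    intro c j
    have := (c j).isLt
    exact_mod_cast this
  have hqZ : ((m : ℤ) + 4) * q ≤ H := by exact_mod_cast hqH
  have hq0 : (1 : ℤ) ≤ q := by exact_mod_cast hq1
  have hprop : ∀ c : Fin (m + 2) → Fin q, (∀ i, vv (fun j => (c j : ℕ)) i ≠ 0 ∧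
      |vv (fun j => (c j : ℕ)) i| ≤ H) ∧ ∑ i, vv (fun j => (c j : ℕ)) i = 0 ∧
      ∃ K : ℝ, ∀ n : ℕ, (F (vv (fun j => (c j : ℕ))) n : ℝ) ≤ K * √n := by
    intro c
    have hm0 : (0 : ℤ) ≤ m := by positivity
    have hsum1 : (1 : ℤ) ≤ ∑ j : Fin (m + 1), (((c j.succ : ℕ) : ℤ) + 1) := by
      calc (1 : ℤ) ≤ ∑ _j : Fin (m + 1), (1 : ℤ) := by simp
        _ ≤ _ := Finset.sum_le_sum fun j _ => by
          have : (0 : ℤ) ≤ ((c j.succ : ℕ) : ℤ) := by positivity
          linarith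
    have hsum2 : ∑ j : Fin (m + 1), (((c j.succ : ℕ) : ℤ) + 1) ≤ ((m : ℤ) + 1) * q := by
      calc ∑ j : Fin (m + 1), (((c j.succ : ℕ) : ℤ) + 1) ≤ ∑ _j : Fin (m + 1), (q : ℤ) :=
            Finset.sum_le_sum fun j _ => hval c j.succ
        _ = _ := by simp
    have hnz : ∀ i, vv (fun j => (c j : ℕ)) i ≠ 0 ∧ |vv (fun j => (c j : ℕ)) i| ≤ H := by
      intro i
      have h0 : (0 : ℤ) ≤ ((c 0 : ℕ) : ℤ) := by positivity
      have h00 := hval c 0
      have hqH' : (q : ℤ) ≤ H := by nlinarith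
      refine Fin.cases ?_ (fun i => ?_) i
      · show ((c 0 : ℕ) : ℤ) + 1 ≠ 0 ∧ |((c 0 : ℕ) : ℤ) + 1| ≤ H
        rw [abs_of_nonneg (by linarith)]
        exact ⟨by linarith, by linarith⟩
      · refine Fin.cases ?_ (fun i => ?_) i
        · show -(((c 0 : ℕ) : ℤ) + 1) ≠ 0 ∧ |-(((c 0 : ℕ) : ℤ) + 1)| ≤ H
          rw [abs_neg, abs_of_nonneg (by linarith)]
          exact ⟨by linarith, by linarith⟩
        · unfold vv
          simp only [Fin.cons_succ]
          refine Fin.lastCases ?_ (fun i => ?_) i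
          · rw [Fin.snoc_last, abs_neg, abs_of_nonneg (by linarith)]
            exact ⟨by linarith, by nlinarith⟩
          · rw [Fin.snoc_castSucc]
            have h1 : (0 : ℤ) ≤ ((c i.succ : ℕ) : ℤ) := by positivity
            have h2 := hval c i.succ
            rw [abs_of_nonneg (by linarith)]
            exact ⟨by linarith, by linarith⟩
    refine ⟨hnz, vv_sum _, ?_⟩
    obtain ⟨K, hK⟩ := genus_bound (vv (fun j => (c j : ℕ))) (fun i => (hnz i).1)
      {0, 1} ⟨0, by simp⟩ (by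
        intro h
        have h1 : (⟨2, by omega⟩ : Fin (m + 4)) ∈ ({0, 1} : Finset (Fin (m + 4))) := by
          rw [h]
          exact mem_univ _
        rw [Finset.mem_insert, Finset.mem_singleton] at h1
        rcases h1 with h1 | h1
        · have h2 := congrArg Fin.val h1
          simp at h2
        · have h2 := congrArg Fin.val h1
          simp at h2) (vv_pair _) (vv_sum _)
    refine ⟨√K, fun n => ?_⟩
    obtain ⟨A, hA1, hA2, hA3⟩ := F_attained (by omega) (vv (fun j => (c j : ℕ))) n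
    have := hK n A hA1 hA2
    rw [hA3] at this
    rw [← Real.sqrt_mul (by positivity)]
    apply Real.le_sqrt_of_sq_le
    exact_mod_cast this
  have hinj : Function.Injective (fun c : Fin (m + 2) → Fin q =>
      (⟨vv (fun j => (c j : ℕ)), hprop c⟩ : {a : Fin (m + 4) → ℤ // (∀ i, a i ≠ 0 ∧ |a i| ≤ H) ∧
        ∑ i, a i = 0 ∧ ∃ K : ℝ, ∀ n : ℕ, (F a n : ℝ) ≤ K * √n})) := by
    intro c d hcd
    have h1 : vv (fun j => (c j : ℕ)) = vv (fun j => (d j : ℕ)) := congrArg Subtype.val hcd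
    funext j
    refine Fin.cases ?_ (fun j => ?_) j
    · have h2 := congrFun h1 0
      have h3 : ((c 0 : ℕ) : ℤ) + 1 = ((d 0 : ℕ) : ℤ) + 1 := h2
      apply Fin.ext
      omega
    · have h2 := congrFun h1 (j.castSucc.succ.succ)
      unfold vv at h2
      simp only [Fin.cons_succ, Fin.snoc_castSucc] at h2
      apply Fin.ext
      omega
  have hcard := Nat.card_le_card_of_injective _ hinj
  rw [Nat.card_eq_fintype_card (α := Fin (m + 2) → Fin q), Fintype.card_fun, Fintype.card_fin,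
    Fintype.card_fin] at hcard
  calc H ^ (m + 2) ≤ (2 * (m + 4) * q) ^ (m + 2) := Nat.pow_le_pow_left hHq _
    _ = (2 * (m + 4)) ^ (m + 2) * q ^ (m + 2) := by rw [mul_pow]
    _ ≤ _ := Nat.mul_le_mul_left _ hcard

theorem orders {k : ℕ} (hk : 3 ≤ k) {ε : ℝ} (hε : 0 < ε) :
    ∃ C : ℕ, ∀ H : ℕ, 2 ≤ H →
      Nat.card {a : Fin k → ℤ // (∀ i, a i ≠ 0 ∧ |a i| ≤ H) ∧ ∃ α : ℝ, α ≤ 1 - ε ∧
        Comparable (F a) α} ≤ C * H ^ (k - 2) * Nat.log 2 H ^ C := by
  classical
  obtain ⟨C, hC⟩ := full hk (half_pos hε)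
  refine ⟨C, fun H hH => le_trans ?_ (hC H hH)⟩
  have hfin : Finite {a : Fin k → ℤ // (∀ i, |a i| ≤ H) ∧ ∑ i, a i = 0 ∧
      ¬ ∀ᶠ n : ℕ in atTop, (n : ℝ) ^ (1 - ε / 2) ≤ F a n} := by
    have h1 : ((Fintype.piFinset fun _ : Fin k => Finset.Icc (-(H : ℤ)) H : Finset _) :
        Set (Fin k → ℤ)).Finite := Finset.finite_toSet _
    exact (h1.subset (t := {a : Fin k → ℤ | (∀ i, |a i| ≤ H) ∧ ∑ i, a i = 0 ∧
      ¬ ∀ᶠ n : ℕ in atTop, (n : ℝ) ^ (1 - ε / 2) ≤ F a n}) (fun a ha => by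
        rw [Finset.mem_coe, Fintype.mem_piFinset]
        intro i
        rw [Finset.mem_Icc]
        exact abs_le.1 (ha.1 i))).to_subtype
  refine Nat.card_le_card_of_injective (fun a => ⟨a.1, fun i => (a.2.1 i).2, ?_⟩) ?_
  · obtain ⟨a, ha, α, hα, hc⟩ := a
    exact not_comparable a hε hα hc
  · intro a b hab
    have h1 := Subtype.ext_iff.1 hab
    exact Subtype.ext h1

end Pool.Agent.Work.MP_e8d560_co.G
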