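import Pool.Agent.Work.MP_e8d560_co.G.Digits

/-! Good primes, and the number of the integer points without good primes. -/

namespace Pool.Agent.Work.MP_e8d560_co.G

open Finset

/-- the homogeneous form with coefficient vector `f` -/
def FF {m : ℕ} (r : ℕ) (f : (Fin m → ℕ) → ℤ) (y : Fin (m + 1) → ℤ) : ℤ :=
  ∑ K ∈ box m (r + 1), f K * (y 0 ^ (m * r - ∑ l, K l) * ∏ l : Fin m, y l.succ ^ K l)

theorem sum_le_of_mem {m r : ℕ} {K : Fin m → ℕ} (hK : K ∈ box m (r + 1)) : ∑ l, K l ≤ m * r := by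
  calc ∑ l, K l ≤ ∑ _l : Fin m, r := Finset.sum_le_sum fun l _ => by
        have := mem_box.1 hK l
        omega
    _ = m * r := by simp

theorem free_of_good {m r N L : ℕ} [Fact N.Prime] (y : Fin (m + 1) → ℤ) (h0 : ¬ (N : ℤ) ∣ y 0)
    (hf : ∀ f : (Fin m → ℕ) → ℤ, (∀ K, |f K| ≤ L) → (∃ K ∈ box m (r + 1), f K ≠ 0) →
      ¬ (N : ℤ) ∣ FF r f y) :
    SmallFree N (fun l : Fin m => (y l.succ : ZMod N) / (y 0 : ZMod N)) r L := by
  intro f hfL hs
  by_contra hcon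
  push Not at hcon
  apply hf f hfL hcon
  rw [← ZMod.intCast_zmod_eq_zero_iff_dvd]
  have hy0 : (y 0 : ZMod N) ≠ 0 := fun h => h0 ((ZMod.intCast_zmod_eq_zero_iff_dvd _ _).1 h)
  have h1 : ((FF r f y : ℤ) : ZMod N) = (y 0 : ZMod N) ^ (m * r) *
      ∑ K ∈ box m (r + 1), (f K : ZMod N) *
        mon (fun l : Fin m => (y l.succ : ZMod N) / (y 0 : ZMod N)) K := by
    unfold FF
    push_cast
    rw [Finset.mul_sum]
    refine Finset.sum_congr rfl fun K hK => ?_
    have h2 : (y 0 : ZMod N) ^ (m * r) = (y 0 : ZMod N) ^ (m * r - ∑ l, K l) *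
        (y 0 : ZMod N) ^ (∑ l, K l) := by
      rw [← pow_add, Nat.sub_add_cancel (sum_le_of_mem hK)]
    have h3 : (y 0 : ZMod N) ^ (∑ l, K l) *
        mon (fun l : Fin m => (y l.succ : ZMod N) / (y 0 : ZMod N)) K =
        ∏ l : Fin m, (y l.succ : ZMod N) ^ K l := by
      unfold mon
      rw [← Finset.prod_pow_eq_pow_sum, ← Finset.prod_mul_distrib]
      refine Finset.prod_congr rfl fun l _ => ?_
      rw [← mul_pow, mul_div_cancel₀ _ hy0]
    rw [h2, ← h3]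
    ring
  rw [h1, hs, mul_zero]

/-- extension by zero -/
def exz {m r : ℕ} (g : (Fin m → Fin (r + 1)) → ℤ) (K : Fin m → ℕ) : ℤ :=
  if h : ∀ l, K l < r + 1 then g fun l => ⟨K l, h l⟩ else 0

theorem FF_exz {m r : ℕ} (f : (Fin m → ℕ) → ℤ) (y : Fin (m + 1) → ℤ) :
    FF r (exz (r := r) fun J => f fun l => (J l : ℕ)) y = FF r f y := by
  unfold FF
  refine Finset.sum_congr rfl fun K hK => ?_
  unfold exz
  rw [dif_pos (mem_box.1 hK)]

/-- the polynomial -/
noncomputable def PP {m : ℕ} (r : ℕ) (f : (Fin m → ℕ) → ℤ) : MvPolynomial (Fin (m + 1)) ℤ :=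
  ∑ K ∈ box m (r + 1), MvPolynomial.monomial
    (Finsupp.equivFunOnFinite.symm (Fin.cons (m * r - ∑ l, K l) K : Fin (m + 1) → ℕ)) (f K)

theorem eval_PP {m r : ℕ} (f : (Fin m → ℕ) → ℤ) (y : Fin (m + 1) → ℤ) :
    MvPolynomial.eval y (PP r f) = FF r f y := by
  unfold PP FF
  rw [map_sum]
  refine Finset.sum_congr rfl fun K _ => ?_
  rw [MvPolynomial.eval_monomial, Finsupp.prod_fintype _ _ (fun i => pow_zero _),
    Fin.prod_univ_succ]
  rfl

theorem deg_PP {m r : ℕ} (f : (Fin m → ℕ) → ℤ) : (PP r f).totalDegree ≤ m * r := by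
  unfold PP
  refine MvPolynomial.totalDegree_finsetSum_le fun K hK => ?_
  refine (MvPolynomial.totalDegree_monomial_le _ _).trans ?_
  rw [Finsupp.sum_fintype _ _ (fun _ => rfl), Fin.sum_univ_succ]
  have := sum_le_of_mem hK
  show (m * r - ∑ l, K l) + ∑ l : Fin m, K l ≤ m * r
  omega

theorem PP_ne {m r : ℕ} (f : (Fin m → ℕ) → ℤ) {K0 : Fin m → ℕ} (hK0 : K0 ∈ box m (r + 1))
    (h : f K0 ≠ 0) : PP r f ≠ 0 := by
  classical
  intro h0
  have h1 := congrArg (MvPolynomial.coeff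
    (Finsupp.equivFunOnFinite.symm (Fin.cons (m * r - ∑ l, K0 l) K0 : Fin (m + 1) → ℕ))) h0
  unfold PP at h1
  rw [MvPolynomial.coeff_sum, Finset.sum_eq_single K0, MvPolynomial.coeff_monomial,
    if_pos rfl, MvPolynomial.coeff_zero] at h1
  · exact h h1
  · intro K _ hK
    rw [MvPolynomial.coeff_monomial, if_neg]
    intro h2
    apply hK
    have h3 := Finsupp.equivFunOnFinite.symm.injective h2
    exact (Fin.cons_injective2 h3).2
  · intro h2
    exact absurd hK0 h2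

theorem count_zero {m r : ℕ} (f : (Fin m → ℕ) → ℤ) {K0 : Fin m → ℕ} (hK0 : K0 ∈ box m (r + 1))
    (h : f K0 ≠ 0) (H : ℕ) :
    ((Fintype.piFinset fun _ : Fin (m + 1) => Finset.Icc (-(H : ℤ)) H).filter
      fun y => FF r f y = 0).card ≤ m * r * (2 * H + 1) ^ m := by
  have h1 := MvPolynomial.schwartz_zippel_totalDegree (PP_ne f hK0 h) (Finset.Icc (-(H : ℤ)) H)
  have hc : (Finset.Icc (-(H : ℤ)) H).card = 2 * H + 1 := by
    rw [Int.card_Icc]
    omega
  rw [hc] at h1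
  have h2 : ((2 * H + 1 : ℕ) : NNRat) ≠ 0 := by
    exact_mod_cast (by omega : 2 * H + 1 ≠ 0)
  have hpos : (0 : NNRat) < ((2 * H + 1 : ℕ) : NNRat) := by
    exact_mod_cast (by omega : 0 < 2 * H + 1)
  simp only [eval_PP] at h1
  rw [div_le_div_iff₀ (by positivity) hpos] at h1
  have h3 : ((((Fintype.piFinset fun _ : Fin (m + 1) => Finset.Icc (-(H : ℤ)) H).filter
      fun y => FF r f y = 0).card : ℕ) : NNRat) ≤ ((m * r : ℕ) : NNRat) * ((2 * H + 1 : ℕ) : NNRat) ^ m := by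
    have h4 : (((PP r f).totalDegree : ℕ) : NNRat) ≤ ((m * r : ℕ) : NNRat) := by
      exact_mod_cast deg_PP f
    have h5 : ((((Fintype.piFinset fun _ : Fin (m + 1) => Finset.Icc (-(H : ℤ)) H).filter
      fun y => FF r f y = 0).card : ℕ) : NNRat) * ((2 * H + 1 : ℕ) : NNRat) ≤
        (((m * r : ℕ) : NNRat) * ((2 * H + 1 : ℕ) : NNRat) ^ m) * ((2 * H + 1 : ℕ) : NNRat) := by
      refine h1.trans ?_
      rw [mul_assoc, ← pow_succ]
      exact mul_le_mul_of_nonneg_right h4 (by positivity)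
    exact le_of_mul_le_mul_right h5 hpos
  exact_mod_cast h3

theorem card_pf {n A : ℕ} (h0 : n ≠ 0) (h : n < 2 ^ A) : n.primeFactors.card ≤ A := by
  have h1 : 2 ^ n.primeFactors.card ≤ ∏ p ∈ n.primeFactors, p := by
    rw [← Finset.prod_const]
    exact Finset.prod_le_prod' fun p hp => (Nat.prime_of_mem_primeFactors hp).two_le
  have h2 : ∏ p ∈ n.primeFactors, p ≤ n := Nat.le_of_dvd (by omega) (Nat.prod_primeFactors_dvd n)
  have h3 : 2 ^ n.primeFactors.card < 2 ^ A := by omega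
  exact ((Nat.pow_lt_pow_iff_right (by norm_num)).1 h3).le

/-- the nonzero coefficient vectors -/
noncomputable def fam (m r L : ℕ) : Finset ((Fin m → Fin (r + 1)) → ℤ) :=
  (Fintype.piFinset fun _ => Finset.Icc (-(L : ℤ)) L).erase 0

theorem card_fam (m r L : ℕ) : (fam m r L).card ≤ (2 * L + 1) ^ ((r + 1) ^ m) := by
  unfold fam
  refine (Finset.card_erase_le).trans ?_
  rw [Fintype.card_piFinset, Finset.prod_const, Finset.card_univ, Fintype.card_fun,
    Fintype.card_fin, Fintype.card_fin, Int.card_Icc]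
  apply le_of_eq
  congr 1
  omega

theorem mem_fam {m r L : ℕ} {g : (Fin m → Fin (r + 1)) → ℤ} :
    g ∈ fam m r L ↔ g ≠ 0 ∧ ∀ J, |g J| ≤ L := by
  unfold fam
  rw [Finset.mem_erase, Fintype.mem_piFinset]
  refine and_congr_right fun _ => forall_congr' fun J => ?_
  rw [Finset.mem_Icc, abs_le]

/-- a good prime exists -/
theorem exists_good {m r L A M : ℕ} (y : Fin (m + 1) → ℤ) (h0 : y 0 ≠ 0)
    (hy : ∀ g ∈ fam m r L, FF r (exz g) y ≠ 0) (hA0 : (y 0).natAbs < 2 ^ A)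
    (hA : ∀ g ∈ fam m r L, (FF r (exz g) y).natAbs < 2 ^ A)
    (hM : ((2 * L + 1) ^ ((r + 1) ^ m) + 1) * A < Nat.primeCounting M) :
    ∃ N : ℕ, N.Prime ∧ N ≤ M ∧ ¬ (N : ℤ) ∣ y 0 ∧ ∀ g ∈ fam m r L, ¬ (N : ℤ) ∣ FF r (exz g) y := by
  classical
  by_contra hcon
  push Not at hcon
  have hsub : Nat.primesLE M ⊆ (y 0).natAbs.primeFactors ∪
      (fam m r L).biUnion fun g => (FF r (exz g) y).natAbs.primeFactors := by
    intro p hp
    have hp1 := Nat.mem_primesLE.1 hp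
    rw [Finset.mem_union, Finset.mem_biUnion]
    by_cases h1 : (p : ℤ) ∣ y 0
    · left
      exact Nat.mem_primeFactors.2 ⟨hp1.2, Int.natCast_dvd.1 h1, Int.natAbs_ne_zero.2 h0⟩
    · right
      obtain ⟨g, hg, h2⟩ := hcon p hp1.2 hp1.1 h1
      exact ⟨g, hg, Nat.mem_primeFactors.2 ⟨hp1.2, Int.natCast_dvd.1 h2,
        Int.natAbs_ne_zero.2 (hy g hg)⟩⟩
  have h1 := Finset.card_le_card hsub
  rw [Nat.primesLE_card_eq_primeCounting] at h1
  have h2 : ((fam m r L).biUnion fun g => (FF r (exz g) y).natAbs.primeFactors).card ≤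
      (2 * L + 1) ^ ((r + 1) ^ m) * A := by
    refine (Finset.card_biUnion_le).trans ?_
    calc ∑ g ∈ fam m r L, (FF r (exz g) y).natAbs.primeFactors.card ≤ ∑ _g ∈ fam m r L, A :=
          Finset.sum_le_sum fun g hg => card_pf (Int.natAbs_ne_zero.2 (hy g hg)) (hA g hg)
      _ = (fam m r L).card * A := by rw [Finset.sum_const, smul_eq_mul]
      _ ≤ _ := Nat.mul_le_mul_right _ (card_fam m r L)
  have h3 := card_pf (Int.natAbs_ne_zero.2 h0) hA0
  have h4 := Finset.card_union_le (y 0).natAbs.primeFactors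
    ((fam m r L).biUnion fun g => (FF r (exz g) y).natAbs.primeFactors)
  rw [add_mul, one_mul] at hM
  omega

theorem FF_bound {m r L H : ℕ} (f : (Fin m → ℕ) → ℤ) (hf : ∀ K, |f K| ≤ L) (y : Fin (m + 1) → ℤ)
    (hy : ∀ i, |y i| ≤ H) (hH : 1 ≤ H) : |FF r f y| ≤ ((r + 1) ^ m * L * H ^ (m * r) : ℕ) := by
  unfold FF
  refine (Finset.abs_sum_le_sum_abs _ _).trans ?_
  have h1 : ∀ K ∈ box m (r + 1), |f K * (y 0 ^ (m * r - ∑ l, K l) * ∏ l : Fin m, y l.succ ^ K l)| ≤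
      (L * H ^ (m * r) : ℕ) := by
    intro K hK
    rw [abs_mul, abs_mul, abs_pow, Finset.abs_prod]
    have h2 : |y 0| ^ (m * r - ∑ l, K l) * ∏ l : Fin m, |y l.succ ^ K l| ≤ (H : ℤ) ^ (m * r) := by
      have h3 : ∏ l : Fin m, |y l.succ ^ K l| ≤ (H : ℤ) ^ (∑ l, K l) := by
        rw [← Finset.prod_pow_eq_pow_sum]
        refine Finset.prod_le_prod (fun l _ => abs_nonneg _) fun l _ => ?_
        rw [abs_pow]
        exact pow_le_pow_left₀ (abs_nonneg _) (hy _) _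
      calc |y 0| ^ (m * r - ∑ l, K l) * ∏ l : Fin m, |y l.succ ^ K l| ≤
          (H : ℤ) ^ (m * r - ∑ l, K l) * (H : ℤ) ^ (∑ l, K l) :=
            mul_le_mul (pow_le_pow_left₀ (abs_nonneg _) (hy _) _) h3
              (Finset.prod_nonneg fun l _ => abs_nonneg _) (by positivity)
        _ = (H : ℤ) ^ (m * r) := by rw [← pow_add, Nat.sub_add_cancel (sum_le_of_mem hK)]
    push_cast
    exact mul_le_mul (hf K) h2 (mul_nonneg (by positivity) (Finset.prod_nonneg fun l _ => abs_nonneg _))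
      (by positivity)
  refine (Finset.sum_le_sum h1).trans ?_
  rw [Finset.sum_const, nsmul_eq_mul]
  have h4 : (box m (r + 1)).card = (r + 1) ^ m := by
    unfold box
    rw [Fintype.card_piFinset, Finset.prod_const, Finset.card_univ, Fintype.card_fin,
      Finset.card_range]
  rw [h4]
  push_cast
  apply le_of_eq
  ring

end Pool.Agent.Work.MP_e8d560_co.G
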