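import Pool.Agent.Work.MP_e8d560_co.G.Good

/-! The main dichotomy: `F a n ≥ n ^ (1 - ε)` or a polynomial relation of bounded degree with
coefficients of size a power of the logarithm of the height. -/

namespace Pool.Agent.Work.MP_e8d560_co.G

open Finset Filter

theorem behrend_set {k : ℕ} (hk : 2 ≤ k) (α : Fin k → ℤ) (i0 : Fin k)
    (hpos : ∀ i, i ≠ i0 → 0 < α i) (hc : ∑ i, α i = 0) {η : ℝ} (hη : 0 < η) :
    ∀ᶠ Y : ℕ in atTop, ∃ B : Finset ℕ, B ⊆ range Y ∧ (Y : ℝ) ^ (1 - η) ≤ B.card ∧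
      ∀ x : Fin k → ℕ, (∀ i, x i ∈ B) → ∑ i, α i * (x i : ℤ) = 0 → ∀ i, x i = x i0 := by
  obtain ⟨d, hd⟩ := exists_nat_gt (max (2 / η) 3)
  have hd3 : 3 ≤ d := by
    have : (3 : ℝ) < d := lt_of_le_of_lt (le_max_right _ _) hd
    exact_mod_cast this.le
  have hdR : (0 : ℝ) < d := by
    have : 0 < d := by omega
    exact_mod_cast this
  have hβ : 1 - η < 1 - 2 / d := by
    have h1 : 2 / η < d := lt_of_le_of_lt (le_max_left _ _) hd
    have h2 : 2 / d < η := by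
      rw [div_lt_iff₀ hη] at h1
      rw [div_lt_iff₀ hdR]
      linarith
    linarith
  have hs0 : ∑ i ∈ univ.erase i0, α i + α i0 = 0 := by
    rw [Finset.sum_erase_add _ _ (Finset.mem_univ _), hc]
  obtain ⟨i1, hi1⟩ : ∃ i1 : Fin k, i1 ≠ i0 := by
    have : 1 < Fintype.card (Fin k) := by rw [Fintype.card_fin]; omega
    have := Fintype.one_lt_card_iff_nontrivial.mp this
    exact exists_ne i0
  have hneg : α i0 < 0 := by
    have : 0 < ∑ i ∈ univ.erase i0, α i :=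
      Finset.sum_pos (fun i hi => hpos i (Finset.ne_of_mem_erase hi))
        ⟨i1, Finset.mem_erase.mpr ⟨hi1, Finset.mem_univ _⟩⟩
    omega
  have hs1 : 1 ≤ (α i0).natAbs := by omega
  filter_upwards [box_choice (α i0).natAbs d hs1 hd3 hβ] with Y hY
  obtain ⟨D, hD1, hD2, hD3⟩ := hY
  obtain ⟨A, hA1, hA2, hA3⟩ := convexStrict hk α i0 hpos hc d D hD1
  refine ⟨A, ?_, hD3.trans hA2, hA3⟩
  refine hA1.trans (Finset.range_subset_range.mpr ?_)
  have : 1 * ((α i0).natAbs * D) ^ d ≤ (α i0).natAbs * ((α i0).natAbs * D) ^ d :=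
    Nat.mul_le_mul_right _ hs1
  omega

theorem pi_poly (c q : ℕ) : ∀ᶠ T : ℕ in atTop, c * T ^ q < Nat.primeCounting (T ^ (q + 1)) := by
  have hlog : Tendsto (fun x : ℝ => Real.log x / x) atTop (nhds 0) := by
    have := Real.isLittleO_log_id_atTop.tendsto_div_nhds_zero
    simpa using this
  have h1 := (hlog.comp tendsto_natCast_atTop_atTop).eventually
    (gt_mem_nhds (show (0 : ℝ) < Real.log 2 / (2 * ((c + 1) * (q + 1))) by positivity))
  filter_upwards [h1, eventually_ge_atTop 3] with T h2 h3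
  simp only [Function.comp] at h2
  have hT : (3 : ℝ) ≤ T := by exact_mod_cast h3
  have hT0 : (0 : ℝ) < T := by linarith
  have hlT : 0 < Real.log T := Real.log_pos (by linarith)
  have hl2 : 0 < Real.log 2 := Real.log_pos (by norm_num)
  rw [div_lt_div_iff₀ hT0 (by positivity)] at h2
  -- h2 : log T * (2 (c+1)(q+1)) < log 2 * T
  have h4 := Chebyshev.pi_ge (T ^ (q + 1))
  have h5 : Real.log ((T ^ (q + 1) : ℕ) : ℝ) = (q + 1) * Real.log T := by
    push_cast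
    rw [Real.log_pow]
    push_cast
    ring
  have h6 : Real.log (((T ^ (q + 1) : ℕ) : ℝ) + 1) ≤ Real.log 2 + (q + 1) * Real.log T := by
    rw [← h5, ← Real.log_mul (by norm_num) (by positivity)]
    apply Real.log_le_log (by positivity)
    have : (1 : ℝ) ≤ ((T ^ (q + 1) : ℕ) : ℝ) := by
      exact_mod_cast Nat.one_le_pow _ _ (by omega)
    linarith
  rw [h5, div_le_iff₀ (by positivity)] at h4
  have h7 : (1 : ℝ) ≤ (T : ℝ) ^ q := one_le_pow₀ (by linarith)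
  have h8 : (c : ℝ) * (T : ℝ) ^ q < (Nat.primeCounting (T ^ (q + 1)) : ℝ) := by
    have h9 : (c : ℝ) * (T : ℝ) ^ q * ((q + 1) * Real.log T) <
        (Nat.primeCounting (T ^ (q + 1)) : ℝ) * ((q + 1) * Real.log T) := by
      refine lt_of_lt_of_le ?_ h4
      push_cast
      push_cast at h6
      have e1 : Real.log 2 ≤ (T : ℝ) ^ q * (Real.log T * ((c + 1) * (q + 1))) := by
        have e2 : Real.log 2 ≤ Real.log T := Real.log_le_log (by norm_num) (by linarith)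
        have e3 : (1 : ℝ) ≤ (c + 1) * (q + 1) := by
          have : (0 : ℝ) ≤ c := Nat.cast_nonneg _
          have : (0 : ℝ) ≤ q := Nat.cast_nonneg _
          nlinarith
        have e4 : Real.log T ≤ Real.log T * ((c + 1) * (q + 1)) := le_mul_of_one_le_right hlT.le e3
        calc Real.log 2 ≤ Real.log T * ((c + 1) * (q + 1)) := e2.trans e4
          _ ≤ (T : ℝ) ^ q * (Real.log T * ((c + 1) * (q + 1))) :=
            le_mul_of_one_le_left (by positivity) h7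
      have e5 : (T : ℝ) ^ q * (Real.log T * (2 * ((c + 1) * (q + 1)))) <
          (T : ℝ) ^ q * (Real.log 2 * T) := mul_lt_mul_of_pos_left h2 (by positivity)
      have e6 : (T : ℝ) ^ (q + 1) * Real.log 2 = (T : ℝ) ^ q * (Real.log 2 * T) := by ring
      have e7 : ((q : ℝ) + 1) * Real.log T ≤ (T : ℝ) ^ q * ((q + 1) * Real.log T) :=
        le_mul_of_one_le_left (by positivity) h7
      rw [e6]
      nlinarith [e1, e5, e7, h6]
    exact lt_of_mul_lt_mul_right h9 (by positivity)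
  exact_mod_cast h8

/-- integral combination of `α` and the `β l` -/
def comb {k m : ℕ} (α : Fin k → ℤ) (β : Fin m → Fin k → ℤ) (y : Fin (m + 1) → ℤ) (i : Fin k) : ℤ :=
  y 0 * α i + ∑ l, β l i * y l.succ

theorem comb_sum {k m : ℕ} (α : Fin k → ℤ) (β : Fin m → Fin k → ℤ) (hα : ∑ i, α i = 0)
    (hβ : ∀ l, ∑ i, β l i = 0) (y : Fin (m + 1) → ℤ) : ∑ i, comb α β y i = 0 := by
  unfold comb
  rw [Finset.sum_add_distrib, ← Finset.mul_sum, hα, mul_zero, zero_add, Finset.sum_comm]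
  refine Finset.sum_eq_zero fun l _ => ?_
  rw [← Finset.sum_mul, hβ l, zero_mul]

/-- sum of the absolute values of the coefficients -/
def cc {k m : ℕ} (α : Fin k → ℤ) (β : Fin m → Fin k → ℤ) : ℕ :=
  (∑ i, |α i| + ∑ l, ∑ i, |β l i|).toNat

theorem cc_cast {k m : ℕ} (α : Fin k → ℤ) (β : Fin m → Fin k → ℤ) :
    ((cc α β : ℕ) : ℤ) = ∑ i, |α i| + ∑ l, ∑ i, |β l i| := by
  unfold cc
  rw [Int.toNat_of_nonneg]
  exact add_nonneg (Finset.sum_nonneg fun i _ => abs_nonneg _)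
    (Finset.sum_nonneg fun l _ => Finset.sum_nonneg fun i _ => abs_nonneg _)

/-- choice of the parameters -/
theorem ratio {m : ℕ} (hm : 1 ≤ m) {δ : ℝ} (hδ : 0 < δ) :
    ∃ r : ℕ, 1 ≤ r ∧ (1 - δ) < (r : ℝ) ^ m / (((r : ℝ) + 1) ^ m + 1) := by
  have h1 : Tendsto (fun r : ℕ => (r : ℝ) / ((r : ℝ) + 2)) atTop (nhds 1) :=
    tendsto_natCast_div_add_atTop 2
  have h2 : Tendsto (fun r : ℕ => (((r : ℝ) / ((r : ℝ) + 2)) ^ m)) atTop (nhds (1 ^ m)) := h1.pow m
  rw [one_pow] at h2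
  obtain ⟨r, h3, h4⟩ := ((h2.eventually (lt_mem_nhds (show 1 - δ < 1 by linarith))).and
    (eventually_ge_atTop 1)).exists
  refine ⟨r, h4, lt_of_lt_of_le h3 ?_⟩
  rw [div_pow]
  apply div_le_div_of_nonneg_left (by positivity) (by positivity)
  have h5 : (r + 1) ^ m < (r + 2) ^ m := Nat.pow_lt_pow_left (by omega) (by omega)
  have h6 : (((r + 1) ^ m + 1 : ℕ) : ℝ) ≤ (((r + 2) ^ m : ℕ) : ℝ) := by exact_mod_cast h5
  push_cast at h6
  exact h6

/-- from powers of `N` to all `n`, uniform version -/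
theorem powers_unif {k : ℕ} (hk : 0 < k) (a : Fin k → ℤ) {N : ℕ} (hN : 2 ≤ N) {β : ℝ}
    (hβ : 0 < β) (hβ1 : β ≤ 1) {M : ℕ} (hM : (N : ℝ) ^ β ≤ M) (h : ∀ m, M ^ m ≤ F a (N ^ m)) (n : ℕ)
    (hn1 : 1 ≤ n) : (n : ℝ) ^ β ≤ N * F a n := by
  have hNR : (0 : ℝ) < N := by
    have : 0 < N := by omega
    exact_mod_cast this
  have hn : (0 : ℝ) < n := by exact_mod_cast hn1
  set m := Nat.log N n with hm
  have h3 : N ^ m ≤ n := Nat.pow_log_le_self N (by omega)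
  have h4 : n < N ^ (m + 1) := Nat.lt_pow_succ_log_self (by omega) n
  have h5 : ((N : ℝ) ^ β) ^ m ≤ F a n := by
    calc ((N : ℝ) ^ β) ^ m ≤ (M : ℝ) ^ m := by gcongr
      _ ≤ F a (N ^ m) := by exact_mod_cast h m
      _ ≤ F a n := by exact_mod_cast F_mono hk a h3
  have h6 : ((N : ℝ) ^ β) ^ m * (N : ℝ) ^ β = (((N ^ (m + 1) : ℕ)) : ℝ) ^ β := by
    push_cast
    rw [← pow_succ, ← Real.rpow_natCast, ← Real.rpow_mul hNR.le, ← Real.rpow_natCast,
      ← Real.rpow_mul hNR.le, mul_comm]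
  have h7 : (n : ℝ) ^ β ≤ (((N ^ (m + 1) : ℕ)) : ℝ) ^ β := by
    apply Real.rpow_le_rpow hn.le _ hβ.le
    exact_mod_cast h4.le
  have h8 : (N : ℝ) ^ β ≤ N := by
    calc (N : ℝ) ^ β ≤ (N : ℝ) ^ (1 : ℝ) := by
          apply Real.rpow_le_rpow_of_exponent_le _ hβ1
          have : 1 ≤ N := by omega
          exact_mod_cast this
      _ = N := Real.rpow_one _
  rw [← h6] at h7
  calc (n : ℝ) ^ β ≤ ((N : ℝ) ^ β) ^ m * (N : ℝ) ^ β := h7
    _ ≤ F a n * N := mul_le_mul h5 h8 (by positivity) (by positivity)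
    _ = N * F a n := by ring

/-- the key step for one coefficient vector -/
theorem step {k m r L N Y : ℕ} [Fact N.Prime] {ε η : ℝ} (hk : 2 ≤ k) (α : Fin k → ℤ)
    (β : Fin m → Fin k → ℤ) (i0 : Fin k) (hα : ∑ i, α i = 0) (hβ : ∀ l, ∑ i, β l i = 0)
    (hc : 1 ≤ cc α β) (y : Fin (m + 1) → ℤ)
    (hL : L = cc α β * Y) (h0 : ¬ (N : ℤ) ∣ y 0)
    (hg : ∀ g ∈ fam m r L, ¬ (N : ℤ) ∣ FF r (exz g) y)
    (hN : N ≤ Y ^ ((r + 1) ^ m + 1)) (B : Finset ℕ) (hB : B ⊆ range Y)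
    (hBc : (Y : ℝ) ^ (1 - η) ≤ B.card)
    (hB2 : ∀ x : Fin k → ℕ, (∀ i, x i ∈ B) → ∑ i, α i * (x i : ℤ) = 0 → ∀ i, x i = x i0)
    (hY : 1 ≤ Y) (hη0 : 0 < η) (hη : η < 1) (hr : 1 ≤ r)
    (hβ' : 1 - ε < (1 - η) * ((r : ℝ) ^ m / (((r : ℝ) + 1) ^ m + 1))) :
    ∀ n : ℕ, 1 ≤ n → (n : ℝ) ^ (1 - ε) ≤ N * F (comb α β y) n := by
  have hfree := free_of_good (r := r) (L := L) y h0 (by
    intro f hf hK
    rw [← FF_exz]
    apply hg
    rw [mem_fam]
    refine ⟨fun h => ?_, fun J => hf _⟩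
    obtain ⟨K, hK1, hK2⟩ := hK
    have h1 := congrFun h fun l => ⟨K l, mem_box.1 hK1 l⟩
    exact hK2 h1)
  have hLZ : (∑ i, |α i| + ∑ l, ∑ i, |β l i|) * (Y : ℤ) ≤ L := by
    rw [← cc_cast, hL]
    push_cast
    exact le_refl _
  have hYL : Y ≤ L := by
    rw [hL]
    exact Nat.le_mul_of_pos_left _ (by omega)
  obtain ⟨D, hD1, hD2, hD3⟩ := digits_of_free α β hβ
    (fun l : Fin m => (y l.succ : ZMod N) / (y 0 : ZMod N)) hLZ hYL hfree B hB i0 hB2
  have hy0 : (y 0 : ZMod N) ≠ 0 := fun h => h0 ((ZMod.intCast_zmod_eq_zero_iff_dvd _ _).1 h)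
  have hD4 := hD3 (comb α β y) (y 0 : ZMod N) (isUnit_iff_ne_zero.2 hy0) (by
    intro i
    unfold comb
    push_cast
    rw [mul_add, Finset.mul_sum]
    congr 1
    refine Finset.sum_congr rfl fun l _ => ?_
    field_simp)
  have hN2 : 2 ≤ N := (Fact.out : N.Prime).two_le
  have hYR : (1 : ℝ) ≤ Y := by exact_mod_cast hY
  have hY0 : (0 : ℝ) < Y := by linarith
  set b : ℝ := (1 - η) * ((r : ℝ) ^ m / (((r : ℝ) + 1) ^ m + 1)) with hbd
  have hrR : (0 : ℝ) < r := by exact_mod_cast hr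
  have hb0 : 0 < b := by
    rw [hbd]
    have : 0 < 1 - η := by linarith
    positivity
  have hb1 : b ≤ 1 := by
    rw [hbd]
    have e1 : (r : ℝ) ^ m / (((r : ℝ) + 1) ^ m + 1) ≤ 1 := by
      rw [div_le_one (by positivity)]
      have : (r : ℝ) ^ m ≤ ((r : ℝ) + 1) ^ m := pow_le_pow_left₀ hrR.le (by linarith) m
      linarith
    have e2 : 0 ≤ (r : ℝ) ^ m / (((r : ℝ) + 1) ^ m + 1) := by positivity
    calc (1 - η) * ((r : ℝ) ^ m / (((r : ℝ) + 1) ^ m + 1)) ≤ 1 * 1 :=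
          mul_le_mul (by linarith) e1 e2 (by norm_num)
      _ = 1 := by ring
  intro n hn1
  have hnR : (1 : ℝ) ≤ n := by exact_mod_cast hn1
  refine (Real.rpow_le_rpow_of_exponent_le hnR hβ'.le).trans ?_
  refine powers_unif (by omega) (comb α β y) hN2 hb0 hb1 (M := D.card) ?_
    (fun j => digit_le_F hk (comb α β y) (comb_sum α β hα hβ y) i0 D hD1 hD4 j) n hn1
  rw [hD2]
  push_cast
  have h1 : (N : ℝ) ^ b ≤ ((Y : ℝ) ^ ((r + 1) ^ m + 1)) ^ b := by
    apply Real.rpow_le_rpow (by positivity) _ hb0.le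
    exact_mod_cast hN
  refine h1.trans ?_
  have h2 : ((Y : ℝ) ^ ((r + 1) ^ m + 1)) ^ b = ((Y : ℝ) ^ (1 - η)) ^ (r ^ m) := by
    rw [← Real.rpow_natCast, ← Real.rpow_mul hY0.le, ← Real.rpow_natCast ((Y : ℝ) ^ (1 - η)),
      ← Real.rpow_mul hY0.le]
    congr 1
    rw [hbd]
    push_cast
    field_simp
  rw [h2]
  gcongr

theorem dichotomy {k m : ℕ} (hk : 2 ≤ k) (hm : 1 ≤ m) (α : Fin k → ℤ) (β : Fin m → Fin k → ℤ)
    (i0 : Fin k) (hpos : ∀ i, i ≠ i0 → 0 < α i) (hα : ∑ i, α i = 0) (hβ : ∀ l, ∑ i, β l i = 0)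
    {ε : ℝ} (hε : 0 < ε) :
    ∃ r C : ℕ, ∀ H : ℕ, 2 ≤ H → ∃ L : ℕ, L ≤ C * Nat.log 2 H ^ C ∧
      ∀ y : Fin (m + 1) → ℤ, (∀ i, |y i| ≤ H) → (∀ g ∈ fam m r L, FF r (exz g) y ≠ 0) →
          ∀ n : ℕ, 1 ≤ n →
            (n : ℝ) ^ (1 - ε) ≤ ((C * Nat.log 2 H ^ C : ℕ) : ℝ) * F (comb α β y) n := by
  obtain ⟨δ, hδ0, hδ1, hδε⟩ : ∃ δ : ℝ, 0 < δ ∧ δ < 1 ∧ 2 * δ ≤ ε :=
    ⟨min (ε / 2) (1 / 2), by positivity, lt_of_le_of_lt (min_le_right _ _) (by norm_num), by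
      have := min_le_left (ε / 2) (1 / 2)
      linarith⟩
  obtain ⟨r, hr1, hr2⟩ := ratio hm hδ0
  obtain ⟨i1, hi1⟩ : ∃ i1 : Fin k, i1 ≠ i0 := by
    have : 1 < Fintype.card (Fin k) := by rw [Fintype.card_fin]; omega
    have := Fintype.one_lt_card_iff_nontrivial.mp this
    exact exists_ne i0
  have hcc : 1 ≤ cc α β := by
    have h1 : (1 : ℤ) ≤ ((cc α β : ℕ) : ℤ) := by
      rw [cc_cast]
      have h2 : (1 : ℤ) ≤ ∑ i, |α i| := by
        have h3 := hpos i1 hi1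
        calc (1 : ℤ) ≤ |α i1| := by rw [abs_of_pos h3]; omega
          _ ≤ ∑ i, |α i| := Finset.single_le_sum (fun i _ => abs_nonneg (α i)) (mem_univ i1)
      have h4 : 0 ≤ ∑ l, ∑ i, |β l i| :=
        Finset.sum_nonneg fun l _ => Finset.sum_nonneg fun i _ => abs_nonneg _
      linarith
    exact_mod_cast h1
  set P := (r + 1) ^ m with hP
  set C0 := cc α β with hC0
  set c := 6 * (m * r + 2) * (2 * C0 + 1) ^ P with hc
  have hsq : Tendsto (fun T : ℕ => T ^ 2) atTop atTop :=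
    tendsto_pow_atTop (by norm_num)
  have hbig : ∀ᶠ T : ℕ in atTop, P * (C0 * T ^ 2) ≤ 2 ^ T := by
    have h1 : Tendsto (fun T : ℕ => (T : ℝ) ^ 2 / (2 : ℝ) ^ T) atTop (nhds 0) :=
      tendsto_pow_const_div_const_pow_of_one_lt 2 (by norm_num)
    have h2 := h1.eventually (gt_mem_nhds (show (0 : ℝ) < 1 / (P * C0 + 1) by positivity))
    filter_upwards [h2] with T hT
    rw [div_lt_div_iff₀ (by positivity) (by positivity)] at hT
    have h3 : (P : ℝ) * (C0 * (T : ℝ) ^ 2) ≤ 2 ^ T := by nlinarith [sq_nonneg (T : ℝ)]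
    exact_mod_cast h3
  have hev := ((pi_poly c (2 * P + 1)).and (hsq.eventually (behrend_set hk α i0 hpos hα hδ0))).and
    (hbig.and (eventually_ge_atTop 1))
  rw [eventually_atTop] at hev
  obtain ⟨T0, hT0⟩ := hev
  set C2 := C0 * (T0 + 1) ^ 2 + 2 + (T0 + 1) ^ (2 * P + 2) + (2 * P + 2) with hC2
  refine ⟨r, C2, fun H hH => ?_⟩
  set h := Nat.log 2 H with hh
  have hh1 : 1 ≤ h := Nat.log_pos (by norm_num) hH
  set T := T0 + h with hT
  obtain ⟨⟨hpi, B, hB1, hB2, hB3⟩, hbg, hT1⟩ := hT0 T (by omega)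
  have hTh : T ≤ (T0 + 1) * h := by
    rw [hT, add_mul, one_mul]
    have : T0 * 1 ≤ T0 * h := Nat.mul_le_mul_left _ hh1
    omega
  refine ⟨C0 * T ^ 2, ?_, ?_⟩
  · calc C0 * T ^ 2 ≤ C0 * ((T0 + 1) * h) ^ 2 := by gcongr
      _ = C0 * (T0 + 1) ^ 2 * h ^ 2 := by ring
      _ ≤ C2 * h ^ C2 :=
        Nat.mul_le_mul (by omega) (Nat.pow_le_pow_right hh1 (by omega))
  intro y hy hgood
  -- bounds
  have hHlt : H < 2 ^ (h + 1) := Nat.lt_pow_succ_log_self (by norm_num) H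
  have h2H : H ≤ 2 ^ (T + 2) := by
    calc H ≤ 2 ^ (h + 1) := hHlt.le
      _ ≤ 2 ^ (T + 2) := Nat.pow_le_pow_right (by norm_num) (by omega)
  have hr0 : m * r ≠ 0 := by positivity
  -- the first coordinate
  have hy0 : y 0 ≠ 0 := by
    intro h0
    have h1 := hgood (fun J => if J = 0 then 1 else 0) (by
      rw [mem_fam]
      constructor
      · intro h2
        have := congrFun h2 0
        simp at this
      · intro J
        have h3 : (1 : ℤ) ≤ ((C0 * T ^ 2 : ℕ) : ℤ) := by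
          have : 1 ≤ C0 * T ^ 2 := Nat.one_le_iff_ne_zero.2 (by positivity)
          exact_mod_cast this
        split_ifs
        · rw [abs_one]
          exact h3
        · rw [abs_zero]
          linarith)
    apply h1
    unfold FF
    refine Finset.sum_eq_zero fun K hK => ?_
    by_cases hK0 : K = 0
    · subst hK0
      have h2 : m * r - ∑ l : Fin m, (0 : Fin m → ℕ) l = m * r := by simp
      rw [h2, h0, zero_pow hr0]
      ring
    · have h3 : exz (r := r) (fun J => if J = 0 then (1 : ℤ) else 0) K = 0 := by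
        unfold exz
        rw [dif_pos (mem_box.1 hK)]
        refine if_neg ?_
        intro h4
        apply hK0
        funext l
        have h5 := congrFun h4 l
        have h6 := congrArg Fin.val h5
        exact h6
      rw [h3, zero_mul]
  have hexz : ∀ g ∈ fam m r (C0 * T ^ 2), ∀ K, |exz g K| ≤ ((C0 * T ^ 2 : ℕ) : ℤ) := by
    intro g hg K
    unfold exz
    split_ifs
    · exact (mem_fam.1 hg).2 _
    · rw [abs_zero]
      positivity
  have hPC : P * (C0 * T ^ 2) ≤ 2 ^ T := hbg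
  obtain ⟨N, hNp, hNM, hN0, hNg⟩ := exists_good (m := m) (r := r) (L := C0 * T ^ 2)
    (A := (m * r + 2) * (T + 2)) (M := T ^ (2 * P + 1 + 1)) y hy0 hgood (by
      have h1 : ((y 0).natAbs : ℤ) ≤ ((H : ℕ) : ℤ) := by
        rw [Int.natCast_natAbs]
        exact hy 0
      have h2 : (y 0).natAbs ≤ H := by exact_mod_cast h1
      calc (y 0).natAbs ≤ 2 ^ (T + 2) := h2.trans h2H
        _ < 2 ^ ((m * r + 2) * (T + 2)) := Nat.pow_lt_pow_right (by norm_num) (by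
          have : 2 * (T + 2) ≤ (m * r + 2) * (T + 2) := Nat.mul_le_mul_right _ (by omega)
          omega)) (by
      intro g hg
      have h1 := FF_bound (r := r) (exz g) (hexz g hg) y hy (by omega)
      have h2 : (FF r (exz g) y).natAbs ≤ (r + 1) ^ m * (C0 * T ^ 2) * H ^ (m * r) := by
        have h3 : ((FF r (exz g) y).natAbs : ℤ) ≤
            ((r + 1) ^ m * (C0 * T ^ 2) * H ^ (m * r) : ℕ) := by
          rw [Int.natCast_natAbs]
          exact h1
        exact_mod_cast h3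
      calc (FF r (exz g) y).natAbs ≤ (r + 1) ^ m * (C0 * T ^ 2) * H ^ (m * r) := h2
        _ ≤ 2 ^ T * (2 ^ (T + 2)) ^ (m * r) :=
          Nat.mul_le_mul hPC (Nat.pow_le_pow_left h2H _)
        _ = 2 ^ (T + (T + 2) * (m * r)) := by rw [← pow_mul, ← pow_add]
        _ < 2 ^ ((m * r + 2) * (T + 2)) := Nat.pow_lt_pow_right (by norm_num) (by nlinarith)) (by
      refine lt_of_le_of_lt ?_ hpi
      have h1 : 2 * (C0 * T ^ 2) + 1 ≤ (2 * C0 + 1) * T ^ 2 := by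
        have : 1 ≤ T ^ 2 := Nat.one_le_pow _ _ (by omega)
        nlinarith
      have h2 : (2 * (C0 * T ^ 2) + 1) ^ P ≤ (2 * C0 + 1) ^ P * T ^ (2 * P) := by
        calc (2 * (C0 * T ^ 2) + 1) ^ P ≤ ((2 * C0 + 1) * T ^ 2) ^ P := Nat.pow_le_pow_left h1 _
          _ = _ := by rw [mul_pow, ← pow_mul]
      have h3 : 1 ≤ (2 * C0 + 1) ^ P * T ^ (2 * P) := Nat.one_le_iff_ne_zero.2 (by positivity)
      calc ((2 * (C0 * T ^ 2) + 1) ^ ((r + 1) ^ m) + 1) * ((m * r + 2) * (T + 2))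
          ≤ (2 * ((2 * C0 + 1) ^ P * T ^ (2 * P))) * ((m * r + 2) * (3 * T)) := by
            apply Nat.mul_le_mul
            · rw [← hP]
              omega
            · exact Nat.mul_le_mul_left _ (by omega)
        _ = c * T ^ (2 * P + 1) := by
            rw [hc]
            ring)
  have : Fact N.Prime := ⟨hNp⟩
  have hNC : (N : ℝ) ≤ ((C2 * h ^ C2 : ℕ) : ℝ) := by
    have h1 : N ≤ C2 * h ^ C2 := by
      calc N ≤ T ^ (2 * P + 1 + 1) := hNM
        _ ≤ ((T0 + 1) * h) ^ (2 * P + 1 + 1) := Nat.pow_le_pow_left hTh _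
        _ = (T0 + 1) ^ (2 * P + 2) * h ^ (2 * P + 2) := by rw [mul_pow]
        _ ≤ C2 * h ^ C2 := Nat.mul_le_mul (by omega) (Nat.pow_le_pow_right hh1 (by omega))
    exact_mod_cast h1
  intro n hn1
  refine le_trans ?_ (mul_le_mul_of_nonneg_right hNC (Nat.cast_nonneg _))
  refine step (m := m) (r := r) (L := C0 * T ^ 2) (N := N) (Y := T ^ 2) (η := δ) hk α β i0 hα hβ hcc
    y rfl hN0 hNg ?_ B hB1 hB2 hB3 (Nat.one_le_pow _ _ (by omega)) hδ0 hδ1 hr1 ?_ n hn1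
  · refine hNM.trans (le_of_eq ?_)
    rw [← hP, ← pow_mul]
    congr 1
  · have h1 : (1 - δ) * (1 - δ) < (1 - δ) * ((r : ℝ) ^ m / (((r : ℝ) + 1) ^ m + 1)) :=
      mul_lt_mul_of_pos_left hr2 (by linarith)
    nlinarith

end Pool.Agent.Work.MP_e8d560_co.G
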